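import Mathlib
import Pool.Agent.H44.Fatou.Pow

/-!
# Rotations of the sphere, words of rotations, critical values: definitions

Everything happens on the Riemann sphere `Sph = OnePoint ℂ`; `pt x y` (file H44/Fatou/Basic) is the
point with homogeneous coordinates `[x : y]`.
-/

set_option autoImplicit false

open Filter Topology OnePoint
open scoped ComplexConjugate
open Pool.Agent.H44.Fatou

namespace Pool.Agent.H35.NA

/-- the Riemann sphere -/
abbrev Sph : Type := OnePoint ℂ

/-- Unit vectors of `ℂ²`.  They serve as unit representatives of points of the sphere and also as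
parameters of the rotations: `(a, b)` stands for the matrix `(a, -b̄; b, ā)` of `SU(2)`. -/
abbrev Rot : Type := {p : ℂ × ℂ // ‖p.1‖ ^ 2 + ‖p.2‖ ^ 2 = 1}

/-- the identity rotation -/
def oneR : Rot := ⟨(1, 0), by simp⟩

/-- the rotation with parameter `(a, b)`, i.e. the Moebius map `z ↦ (a z - b̄) / (b z + ā)` -/
noncomputable def rot (r : Rot) : Sph → Sph :=
  fun x => x.elim (pt r.1.1 r.1.2) (fun z => pt (r.1.1 * z - conj r.1.2) (r.1.2 * z + conj r.1.1))

/-- `run g [r₁, ..., rₙ] = rot rₙ ∘ g ∘ ... ∘ rot r₁ ∘ g` -/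
noncomputable def run (g : Sph → Sph) : List Rot → Sph → Sph
  | [], x => x
  | r :: w, x => run g w (rot r (g x))

/-- critical points: the points where `f` is not locally injective -/
def crit (f : Sph → Sph) : Set Sph := {c | ¬ ∃ U ∈ 𝓝 c, Set.InjOn f U}

/-- the set of critical values is finite -/
def FinCV (f : Sph → Sph) : Prop := (f '' crit f).Finite

/-- the orbit of `x` under `f` converges to an attracting periodic cycle -/
def Attr (f : Sph → Sph) (x : Sph) : Prop :=
  ∃ z : Sph, ∃ n : ℕ, 0 < n ∧ f^[n] z = z ∧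
    (∃ U ∈ 𝓝 z, ∀ w ∈ U, Tendsto (fun k : ℕ => f^[n * k] w) atTop (𝓝 z)) ∧
    Tendsto (fun k : ℕ => f^[n * k] x) atTop (𝓝 z)

/-- `Φ` is a holomorphic lift of `f` to homogeneous coordinates -/
def IsLift (Φ : ℂ × ℂ → ℂ × ℂ) (f : Sph → Sph) : Prop :=
  Differentiable ℂ Φ ∧ (∀ v : ℂ × ℂ, v ≠ 0 → Φ v ≠ 0) ∧
    ∀ v : ℂ × ℂ, v ≠ 0 → f (pt v.1 v.2) = pt (Φ v).1 (Φ v).2

/-- maps of the sphere with a holomorphic lift -/
def SphHol (f : Sph → Sph) : Prop := ∃ Φ : ℂ × ℂ → ℂ × ℂ, IsLift Φ f

@[simp] theorem run_nil (g : Sph → Sph) (x : Sph) : run g [] x = x := rfl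

@[simp] theorem run_cons (g : Sph → Sph) (r : Rot) (w : List Rot) (x : Sph) :
    run g (r :: w) x = run g w (rot r (g x)) := rfl

theorem run_append (g : Sph → Sph) (u v : List Rot) (x : Sph) :
    run g (u ++ v) x = run g v (run g u x) := by
  induction u generalizing x with
  | nil => rfl
  | cons r u ih => simp only [List.cons_append, run_cons, ih]

end Pool.Agent.H35.NA
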