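import Mathlib
import Pool.Agent.H35.NA.Defs
import Pool.Agent.H44.Fatou.Coset

/-!
# MODULE ALG: algebraic facts about a rational map `rat P Q` of degree `dg P Q`

(H44/Fatou/Basic: `rat`, `dg`, `Wr`, `crit_coe`, `crit_infty`, `coeff_dg`, `coprime_eval`;
H44/Fatou/Coset: `wr_ne_zero`.)

PROOFS.
* `rat_surjective`: for `w : ℂ` consider `P - w Q`.  If it has a root `z` then `Q z ≠ 0` (coprime) and
  `rat P Q z = w`.  Otherwise it is a nonzero constant, so `P_d = w Q_d` with `d = dg P Q ≥ 1`, and
  `Q_d ≠ 0` (`coeff_dg`), so `rat P Q ∞ = pt P_d Q_d = w`.  For `∞`: a root of `Q`, or `Q` is constant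
  (nonzero), `Q_d = 0` and `rat P Q ∞ = ∞`.
* `rat_fixed`: a root `z` of `P - X Q` is a fixed point.  If there is none then `P - X Q` is a nonzero
  constant, so `Q_d = 0` for `d = dg P Q` (if `Q_d ≠ 0` then `X Q` has degree `d+1 > deg P`), and
  `rat P Q ∞ = ∞`.
* `wr_root` (`dg P Q ≥ 2`): it is enough that `Wr P Q` is not constant.  If `deg P = deg Q` replace `P`
  by `P - λ Q` of smaller degree (`Wr` does not change, `P - λ Q ≠ 0` by coprimality); if
  `p = deg P ≠ q = deg Q`, `p q`-coefficients: the coefficient of `X^(p+q-1)` in `P' Q - P Q'` is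
  `(p - q) lead(P) lead(Q) ≠ 0` and `p + q - 1 ≥ 1`.
* `finCV_rat`: the critical points are roots of `Wr P Q` (`crit_coe`) or `∞`: a finite set
  (`wr_ne_zero`).
-/

set_option autoImplicit false

open Filter Topology OnePoint
open Pool.Agent.H44.Fatou

namespace Pool.Agent.H35.NA

theorem dg_coeff_zero {P : Polynomial ℂ} (h : P.degree = 0) {d : ℕ} (hd : 1 ≤ d) :
    P.coeff d = 0 := by
  apply Polynomial.coeff_eq_zero_of_natDegree_lt
  rw [Polynomial.natDegree_eq_of_degree_eq_some (n := 0) (by simpa using h)]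
  omega

theorem rat_surjective {P Q : Polynomial ℂ} (hcop : IsCoprime P Q) (hd : 1 ≤ dg P Q) :
    Function.Surjective (rat P Q) := by
  intro w
  induction w using OnePoint.rec with
  | infty =>
    by_cases h : Q.degree = 0
    · refine ⟨∞, ?_⟩
      rw [rat_infty, dg_coeff_zero h hd]
      unfold pt
      rw [if_pos rfl]
    · obtain ⟨z, hz⟩ := IsAlgClosed.exists_root Q h
      refine ⟨(z : OnePoint ℂ), ?_⟩
      rw [rat_coe, Polynomial.IsRoot.def.1 hz]
      unfold pt
      rw [if_pos rfl]
  | coe w =>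
    by_cases h : (P - Polynomial.C w * Q).degree = 0
    · refine ⟨∞, ?_⟩
      have h1 := dg_coeff_zero h hd
      rw [Polynomial.coeff_sub, Polynomial.coeff_C_mul, sub_eq_zero] at h1
      have h2 : Q.coeff (dg P Q) ≠ 0 := by
        rcases coeff_dg hcop with h3 | h3
        · intro h4
          apply h3
          rw [h1, h4, mul_zero]
        · exact h3
      rw [rat_infty, h1]
      unfold pt
      rw [if_neg h2, mul_div_cancel_right₀ _ h2]
    · obtain ⟨z, hz⟩ := IsAlgClosed.exists_root _ h
      rw [Polynomial.IsRoot.def, Polynomial.eval_sub, Polynomial.eval_mul, Polynomial.eval_C,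
        sub_eq_zero] at hz
      have h2 : Q.eval z ≠ 0 := by
        rcases coprime_eval hcop z with h3 | h3
        · intro h4
          apply h3
          rw [hz, h4, mul_zero]
        · exact h3
      refine ⟨(z : OnePoint ℂ), ?_⟩
      rw [rat_coe_of_ne h2, hz, mul_div_cancel_right₀ _ h2]

theorem rat_fixed {P Q : Polynomial ℂ} (hcop : IsCoprime P Q) (hd : 1 ≤ dg P Q) :
    ∃ p : Sph, rat P Q p = p := by
  by_cases h : (P - Polynomial.X * Q).degree = 0
  · refine ⟨∞, ?_⟩
    have h1 := dg_coeff_zero h (d := dg P Q + 1) (by omega)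
    rw [Polynomial.coeff_sub, Polynomial.coeff_X_mul] at h1
    have h2 : P.coeff (dg P Q + 1) = 0 := by
      apply Polynomial.coeff_eq_zero_of_natDegree_lt
      have : P.natDegree ≤ dg P Q := le_max_left _ _
      omega
    rw [h2, zero_sub, neg_eq_zero] at h1
    rw [rat_infty, h1]
    unfold pt
    rw [if_pos rfl]
  · obtain ⟨z, hz⟩ := IsAlgClosed.exists_root _ h
    rw [Polynomial.IsRoot.def, Polynomial.eval_sub, Polynomial.eval_mul, Polynomial.eval_X,
      sub_eq_zero] at hz
    have h2 : Q.eval z ≠ 0 := by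
      rcases coprime_eval hcop z with h3 | h3
      · intro h4
        apply h3
        rw [hz, h4, mul_zero]
      · exact h3
    refine ⟨(z : OnePoint ℂ), ?_⟩
    rw [rat_coe_of_ne h2, hz, mul_div_cancel_right₀ _ h2]

theorem X_mul_deriv_coeff (P : Polynomial ℂ) (n : ℕ) :
    (Polynomial.X * Polynomial.derivative P).coeff n = n * P.coeff n := by
  cases n with
  | zero => simp
  | succ n =>
    rw [Polynomial.coeff_X_mul, Polynomial.coeff_derivative]
    push_cast
    ring

theorem X_mul_deriv_deg (P : Polynomial ℂ) :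
    (Polynomial.X * Polynomial.derivative P).natDegree ≤ P.natDegree := by
  rw [Polynomial.natDegree_le_iff_coeff_eq_zero]
  intro n hn
  rw [X_mul_deriv_coeff, Polynomial.coeff_eq_zero_of_natDegree_lt hn, mul_zero]

theorem wr_root_of_ne {P Q : Polynomial ℂ} (hP : P ≠ 0) (hQ : Q ≠ 0)
    (hne : P.natDegree ≠ Q.natDegree) (h2 : 2 ≤ P.natDegree + Q.natDegree) :
    ∃ c : ℂ, (Wr P Q).eval c = 0 := by
  set p := P.natDegree with hp
  set q := Q.natDegree with hq
  have h1 : (Polynomial.X * Wr P Q).coeff (p + q) =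
      ((p : ℂ) - q) * (P.coeff p * Q.coeff q) := by
    have e : Polynomial.X * Wr P Q = (Polynomial.X * Polynomial.derivative P) * Q -
        P * (Polynomial.X * Polynomial.derivative Q) := by
      unfold Wr
      ring
    rw [e, Polynomial.coeff_sub, Polynomial.coeff_mul_add_eq_of_natDegree_le (X_mul_deriv_deg P) le_rfl,
      Polynomial.coeff_mul_add_eq_of_natDegree_le le_rfl (X_mul_deriv_deg Q), X_mul_deriv_coeff,
      X_mul_deriv_coeff]
    ring
  have h3 : (Polynomial.X * Wr P Q).coeff (p + q) ≠ 0 := by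
    rw [h1]
    have e1 : P.coeff p ≠ 0 := Polynomial.leadingCoeff_ne_zero.2 hP
    have e2 : Q.coeff q ≠ 0 := Polynomial.leadingCoeff_ne_zero.2 hQ
    have e3 : (p : ℂ) - q ≠ 0 := by
      rw [sub_ne_zero]
      exact_mod_cast hne
    exact mul_ne_zero e3 (mul_ne_zero e1 e2)
  obtain ⟨m, hm⟩ : ∃ m, p + q = m + 1 := ⟨p + q - 1, by omega⟩
  rw [hm, Polynomial.coeff_X_mul] at h3
  have h4 : m ≤ (Wr P Q).natDegree := Polynomial.le_natDegree_of_ne_zero h3
  have h5 : (Wr P Q).degree ≠ 0 := by
    intro h6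
    have := Polynomial.natDegree_eq_of_degree_eq_some (n := 0) (by simpa using h6)
    omega
  obtain ⟨c, hc⟩ := IsAlgClosed.exists_root _ h5
  exact ⟨c, hc⟩

theorem deg_zero_of_coprime_zero {Q : Polynomial ℂ} (h : IsCoprime (0 : Polynomial ℂ) Q) :
    Q.natDegree = 0 :=
  Polynomial.natDegree_eq_zero_of_isUnit (isCoprime_zero_left.1 h)

theorem wr_root {P Q : Polynomial ℂ} (hcop : IsCoprime P Q) (hd : 2 ≤ dg P Q) :
    ∃ c : ℂ, (Wr P Q).eval c = 0 := by
  unfold dg at hd
  have hP : P ≠ 0 := by
    rintro rfl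
    rw [deg_zero_of_coprime_zero hcop] at hd
    simp at hd
  have hQ : Q ≠ 0 := by
    rintro rfl
    rw [deg_zero_of_coprime_zero hcop.symm] at hd
    simp at hd
  by_cases hne : P.natDegree = Q.natDegree
  · have hq2 : 2 ≤ Q.natDegree := by
      rw [hne, max_self] at hd
      exact hd
    set l : ℂ := P.leadingCoeff / Q.leadingCoeff with hl
    set P1 : Polynomial ℂ := P - Polynomial.C l * Q with hP1
    have hcop1 : IsCoprime P1 Q := by
      have h1 : P1 = P + (-Polynomial.C l) * Q := by rw [hP1]; ring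
      rw [h1]
      exact hcop.add_mul_right_left _
    have hP10 : P1 ≠ 0 := by
      intro h0
      rw [h0] at hcop1
      have := deg_zero_of_coprime_zero hcop1
      omega
    have hdeg : P1.natDegree < Q.natDegree := by
      have hle : P1.natDegree ≤ Q.natDegree := by
        rw [hP1]
        refine (Polynomial.natDegree_sub_le _ _).trans (max_le hne.le ?_)
        exact Polynomial.natDegree_C_mul_le _ _
      refine lt_of_le_of_ne hle fun heq => ?_
      have h1 : P1.coeff Q.natDegree = 0 := by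
        rw [hP1, Polynomial.coeff_sub, Polynomial.coeff_C_mul]
        have h2 : P.coeff Q.natDegree = P.leadingCoeff := by
          rw [← hne]; rfl
        have h3 : Q.coeff Q.natDegree = Q.leadingCoeff := rfl
        rw [h2, h3, hl, div_mul_cancel₀ _ (Polynomial.leadingCoeff_ne_zero.2 hQ), sub_self]
      rw [← heq] at h1
      exact hP10 (Polynomial.leadingCoeff_eq_zero.1 h1)
    have hW : Wr P Q = Wr P1 Q := by
      unfold Wr
      rw [hP1]
      simp only [Polynomial.derivative_sub, Polynomial.derivative_mul, Polynomial.derivative_C,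
        zero_mul, zero_add]
      ring
    rw [hW]
    exact wr_root_of_ne hP10 hQ hdeg.ne (by omega)
  · exact wr_root_of_ne hP hQ hne (by omega)

theorem finCV_rat {P Q : Polynomial ℂ} (hcop : IsCoprime P Q) (hd : 1 ≤ dg P Q) :
    FinCV (rat P Q) := by
  unfold FinCV
  apply Set.Finite.image
  have hW := wr_ne_zero hcop hd
  have h1 : crit (rat P Q) ⊆
      {∞} ∪ ((↑) : ℂ → OnePoint ℂ) '' {c | (Wr P Q).IsRoot c} := by
    intro x hx
    induction x using OnePoint.rec with
    | infty => exact Or.inl rfl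
    | coe c => exact Or.inr ⟨c, crit_coe hx, rfl⟩
  refine Set.Finite.subset ((Set.finite_singleton _).union (Set.Finite.image _ ?_)) h1
  exact Polynomial.finite_setOfPred_isRoot hW

end Pool.Agent.H35.NA
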