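import Mathlib

/-!
# MODULE PLANE: a holomorphic map of a bounded open set into a compact subset (Earle-Hamilton)

PROOF of `contr_plane`.  Let `W ⊆ ball 0 R`, `R > 0`, and `ρ > 0` with `ball w ρ ⊆ W` for `w ∈ K`
(`IsCompact.exists_thickening_subset_open`).
(1) For every `n` and `w ∈ W` there is `ψ`, differentiable on `W`, `ψ : W → W`, `ψ w = F^[n] w` and
`deriv ψ w = (1+δ)^n * deriv F^[n] w`, where `δ = ρ/(4R)`: induction on `n`; `ψ_0 = id`, and
`ψ_(n+1) z = g (ψ_n z)` with `g y = F y + δ (F y - F y_n)`, `y_n = F^[n] w`.  (`F y, F y_n ∈ K`,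
`|δ (F y - F y_n)| ≤ δ 2R = ρ/2 < ρ`, so `g : W → W`; `g y_n = F y_n`, `g' y_n = (1+δ) F' y_n`.)
(2) By the Cauchy estimate (`Complex.norm_deriv_le_of_forall_mem_sphere_norm_le`) `‖deriv ψ w‖ ≤ R/r` if
`closedBall w r ⊆ W`.  Hence `‖deriv F^[n] w‖ ≤ (4R/ρ) (1+δ)^(-n)` for all `w` with
`dist (w, K) ≤ ρ/2` (take `r = ρ/4`).
(3) Choose `n ≥ 1` with `(4R/ρ) (1+δ)^(-n) ≤ 1/4`.  The points `w_j = F^[n (j+1)] x` lie in `K`; by
compactness there are `i < j` with `dist w_i w_j < ρ/8`.  Put `N = n (j - i)`, `G = F^[N]`.  On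
`B = closedBall w_i (ρ/2)` we have `‖G'‖ ≤ 1/4` (by (2), as `N ≥ n`), so `G` is `1/4`-Lipschitz on `B`
(`Convex.norm_image_sub_le_of_norm_deriv_le` or the `lipschitzOnWith` version) and
`‖G u - w_i‖ ≤ ρ/8 + ρ/8 < ρ/2` for `u ∈ B`: a contraction of `B` (compare `Pool.Agent.H44.Fatou.trap`).
Its fixed point `z ∈ ball w_i (ρ/2) ⊆ W` attracts all of `B`, in particular `F^[n (i+1)] x = w_i`;
take `m = n (i+1)` and `U = ball w_i (ρ/2)`.  Note `F^[N * k] = G^[k]`.
-/

set_option autoImplicit false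

open Filter Topology

namespace Pool.Agent.H35.NA

private theorem iter_maps {W K : Set ℂ} {F : ℂ → ℂ} (hKW : K ⊆ W) (hmap : ∀ z ∈ W, F z ∈ K) :
    ∀ (n : ℕ) (z : ℂ), z ∈ W → F^[n] z ∈ W := by
  intro n
  induction n with
  | zero => intro z hz; exact hz
  | succ n ih =>
    intro z hz
    rw [Function.iterate_succ_apply]
    exact ih _ (hKW (hmap z hz))

private theorem iter_diff {W K : Set ℂ} {F : ℂ → ℂ} (hF : DifferentiableOn ℂ F W)
    (hKW : K ⊆ W) (hmap : ∀ z ∈ W, F z ∈ K) :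
    ∀ n : ℕ, DifferentiableOn ℂ F^[n] W := by
  intro n
  induction n with
  | zero => exact differentiableOn_id
  | succ n ih =>
    rw [Function.iterate_succ']
    exact hF.comp ih (fun z hz => iter_maps hKW hmap n z hz)

/-- the amplified iterates -/
private theorem amplify {W K : Set ℂ} {F : ℂ → ℂ} {R ρ δ : ℝ} (hW : IsOpen W)
    (hF : DifferentiableOn ℂ F W) (hKW : K ⊆ W) (hmap : ∀ z ∈ W, F z ∈ K)
    (hR : ∀ z ∈ W, ‖z‖ < R) (hρ : 0 < ρ) (hρW : Metric.thickening ρ K ⊆ W) (hδ : 0 ≤ δ)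
    (hδR : δ * (2 * R) < ρ) {w : ℂ} (hw : w ∈ W) :
    ∀ n : ℕ, ∃ (ψ : ℂ → ℂ) (D : ℂ), DifferentiableOn ℂ ψ W ∧ (∀ z ∈ W, ψ z ∈ W) ∧
      ψ w = F^[n] w ∧ HasDerivAt F^[n] D w ∧ HasDerivAt ψ ((1 + δ : ℝ) ^ n * D) w := by
  intro n
  induction n with
  | zero =>
    refine ⟨id, 1, differentiableOn_id, fun z hz => hz, rfl, ?_, ?_⟩
    · exact hasDerivAt_id w
    · rw [pow_zero, one_mul]
      exact hasDerivAt_id w
  | succ n ih =>
    obtain ⟨ψ, D, h1, h2, h3, h4, h5⟩ := ih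
    set y : ℂ := F^[n] w with hy
    have hyW : y ∈ W := iter_maps hKW hmap n w hw
    have hFy : HasDerivAt F (deriv F y) y := (hF.differentiableAt (hW.mem_nhds hyW)).hasDerivAt
    have hFψ : HasDerivAt (fun z => F (ψ z)) (deriv F y * ((1 + δ : ℝ) ^ n * D)) w := by
      have hFy' : HasDerivAt F (deriv F y) (ψ w) := by rw [h3]; exact hFy
      exact hFy'.comp w h5
    refine ⟨fun z => F (ψ z) + (δ : ℂ) * (F (ψ z) - F y), deriv F y * D, ?_, ?_, ?_, ?_, ?_⟩
    · have h6 : DifferentiableOn ℂ (fun z => F (ψ z)) W := hF.comp h1 h2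
      exact h6.add ((h6.sub_const _).const_mul _)
    · intro z hz
      apply hρW
      rw [Metric.mem_thickening_iff]
      refine ⟨F (ψ z), hmap _ (h2 z hz), ?_⟩
      rw [dist_eq_norm, add_sub_cancel_left, norm_mul, Complex.norm_real, Real.norm_eq_abs,
        abs_of_nonneg hδ]
      have h7 : ‖F (ψ z) - F y‖ ≤ 2 * R := by
        have h8 := norm_sub_le (F (ψ z)) (F y)
        have h9 := hR _ (hKW (hmap _ (h2 z hz)))
        have h10 := hR _ (hKW (hmap _ hyW))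
        linarith
      exact lt_of_le_of_lt (mul_le_mul_of_nonneg_left h7 hδ) hδR
    · show F (ψ w) + (δ : ℂ) * (F (ψ w) - F y) = F^[n + 1] w
      rw [h3, sub_self, mul_zero, add_zero, Function.iterate_succ_apply', hy]
    · rw [Function.iterate_succ']
      exact hFy.comp w h4
    · have h11 := hFψ.add ((hFψ.sub_const (F y)).const_mul (δ : ℂ))
      refine h11.congr_deriv ?_
      push_cast
      ring

private theorem deriv_bound {W K : Set ℂ} {F : ℂ → ℂ} {R ρ δ : ℝ} (hW : IsOpen W)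
    (hF : DifferentiableOn ℂ F W) (hKW : K ⊆ W) (hmap : ∀ z ∈ W, F z ∈ K)
    (hR : ∀ z ∈ W, ‖z‖ < R) (hρ : 0 < ρ) (hρW : Metric.thickening ρ K ⊆ W) (hδ : 0 ≤ δ)
    (hδR : δ * (2 * R) < ρ) {w : ℂ} {r : ℝ} (hr : 0 < r) (hw : Metric.closedBall w r ⊆ W)
    (n : ℕ) : (1 + δ) ^ n * ‖deriv F^[n] w‖ ≤ R / r := by
  have hwW : w ∈ W := hw (Metric.mem_closedBall_self hr.le)
  obtain ⟨ψ, D, h1, h2, h3, h4, h5⟩ := amplify hW hF hKW hmap hR hρ hρW hδ hδR hwW n
  have h6 : ‖deriv ψ w‖ ≤ R / r := by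
    apply Complex.norm_deriv_le_of_forall_mem_sphere_norm_le hr (h1.diffContOnCl_ball hw)
    intro z hz
    exact (hR _ (h2 z (hw (Metric.sphere_subset_closedBall hz)))).le
  rw [h5.deriv, norm_mul, norm_pow, Complex.norm_real, Real.norm_eq_abs,
    abs_of_nonneg (by linarith)] at h6
  rw [h4.deriv]
  exact h6

theorem contr_plane {W K : Set ℂ} {F : ℂ → ℂ} (hW : IsOpen W) (hb : Bornology.IsBounded W)
    (hF : DifferentiableOn ℂ F W) (hK : IsCompact K) (hKW : K ⊆ W) (hmap : ∀ z ∈ W, F z ∈ K)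
    {x : ℂ} (hx : x ∈ W) :
    ∃ (m N : ℕ) (z : ℂ) (U : Set ℂ), 0 < N ∧ z ∈ W ∧ F^[N] z = z ∧ U ∈ 𝓝 z ∧ U ⊆ W ∧
      (∀ w ∈ U, Tendsto (fun k : ℕ => F^[N * k] w) atTop (𝓝 z)) ∧
      Tendsto (fun k : ℕ => F^[N * k] (F^[m] x)) atTop (𝓝 z) := by
  obtain ⟨R, hR0, hR'⟩ := hb.subset_ball_lt 0 (0 : ℂ)
  have hR : ∀ z ∈ W, ‖z‖ < R := fun z hz => by
    have := hR' hz
    rwa [mem_ball_zero_iff] at this
  obtain ⟨ρ, hρ, hρW⟩ := hK.exists_thickening_subset_open hW hKW
  set δ : ℝ := ρ / (4 * R) with hδdef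
  have hδ : 0 < δ := by positivity
  have hδR : δ * (2 * R) < ρ := by
    have : δ * (2 * R) = ρ / 2 := by
      rw [hδdef]
      field_simp
      ring
    rw [this]
    linarith
  -- large exponent
  obtain ⟨n, hn⟩ : ∃ n : ℕ, 16 * R / ρ < (1 + δ) ^ n :=
    pow_unbounded_of_one_lt _ (by linarith)
  have hn1 : (1 : ℝ) ≤ 1 + δ := by linarith
  set w : ℕ → ℂ := fun j => F^[(n + 1) * (j + 1)] x with hw
  have hwK : ∀ j, w j ∈ K := by
    intro j
    have h1 : (n + 1) * (j + 1) = ((n + 1) * (j + 1) - 1) + 1 := by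
      have : 0 < (n + 1) * (j + 1) := Nat.mul_pos (Nat.succ_pos n) (Nat.succ_pos j)
      omega
    show F^[(n + 1) * (j + 1)] x ∈ K
    rw [h1, Function.iterate_succ_apply']
    exact hmap _ (iter_maps hKW hmap _ x hx)
  obtain ⟨i, j, hij, hdist⟩ : ∃ i j, i < j ∧ dist (w i) (w j) < ρ / 8 := by
    obtain ⟨a, _, φ, hφ, ha⟩ := hK.tendsto_subseq hwK
    have h1 := (Metric.tendsto_atTop.1 ha) (ρ / 16) (by positivity)
    obtain ⟨k, hk⟩ := h1
    refine ⟨φ k, φ (k + 1), hφ (Nat.lt_succ_self k), ?_⟩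
    have h2 := hk k le_rfl
    have h3 := hk (k + 1) (Nat.le_succ k)
    calc dist (w (φ k)) (w (φ (k + 1))) ≤ dist (w (φ k)) a + dist (w (φ (k + 1))) a :=
          dist_triangle_right _ _ _
      _ < ρ / 16 + ρ / 16 := add_lt_add h2 h3
      _ = ρ / 8 := by ring
  set N : ℕ := (n + 1) * (j - i) with hN
  have hNpos : 0 < N := Nat.mul_pos (Nat.succ_pos n) (by omega)
  have hnN : n ≤ N := by
    have h1 : 1 ≤ j - i := by omega
    calc n ≤ (n + 1) * 1 := by omega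
      _ ≤ (n + 1) * (j - i) := Nat.mul_le_mul_left _ h1
  set G : ℂ → ℂ := F^[N] with hG
  have hGw : G (w i) = w j := by
    show F^[N] (F^[(n + 1) * (i + 1)] x) = F^[(n + 1) * (j + 1)] x
    rw [← Function.iterate_add_apply, hN, ← Nat.mul_add]
    congr 2
    omega
  have hball : ∀ u, dist u (w i) < ρ → u ∈ W := fun u hu =>
    hρW (Metric.mem_thickening_iff.2 ⟨w i, hwK i, hu⟩)
  have hBW : Metric.closedBall (w i) (ρ / 2) ⊆ W := by
    intro u hu
    exact hball u (lt_of_le_of_lt (Metric.mem_closedBall.1 hu) (by linarith))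
  have hder : ∀ u ∈ Metric.closedBall (w i) (ρ / 2), ‖deriv G u‖ ≤ 1 / 4 := by
    intro u hu
    have h1 : Metric.closedBall u (ρ / 4) ⊆ W := by
      intro v hv
      apply hball
      calc dist v (w i) ≤ dist v u + dist u (w i) := dist_triangle _ _ _
        _ ≤ ρ / 4 + ρ / 2 := add_le_add (Metric.mem_closedBall.1 hv) (Metric.mem_closedBall.1 hu)
        _ < ρ := by linarith
    have h2 := deriv_bound hW hF hKW hmap hR hρ hρW hδ.le hδR (by positivity) h1 N
    have h3 : (1 + δ) ^ n ≤ (1 + δ) ^ N := pow_le_pow_right₀ hn1 hnN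
    have h4 : 16 * R / ρ * ‖deriv G u‖ ≤ R / (ρ / 4) :=
      (mul_le_mul_of_nonneg_right (hn.le.trans h3) (norm_nonneg _)).trans h2
    have h5 : R / (ρ / 4) = 4 * R / ρ := by field_simp
    have h6 : 16 * R / ρ * ‖deriv G u‖ = (4 * R / ρ) * (4 * ‖deriv G u‖) := by ring
    rw [h5, h6] at h4
    have h7 : 0 < 4 * R / ρ := by positivity
    have h8 : 4 * ‖deriv G u‖ ≤ 1 := by
      by_contra hcon
      push Not at hcon
      have := mul_lt_mul_of_pos_left hcon h7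
      linarith
    linarith
  have hGdiff := iter_diff hF hKW hmap N
  have hlip : ∀ u ∈ Metric.closedBall (w i) (ρ / 2), ∀ v ∈ Metric.closedBall (w i) (ρ / 2),
      ‖G u - G v‖ ≤ 1 / 4 * ‖u - v‖ := by
    intro u hu v hv
    exact Convex.norm_image_sub_le_of_norm_deriv_le
      (fun y hy => hGdiff.differentiableAt (hW.mem_nhds (hBW hy))) hder
      (convex_closedBall _ _) hv hu
  have hself : w i ∈ Metric.closedBall (w i) (ρ / 2) := Metric.mem_closedBall_self (by positivity)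
  have hmapsB : ∀ u ∈ Metric.closedBall (w i) (ρ / 2), G u ∈ Metric.ball (w i) (ρ / 2) := by
    intro u hu
    rw [Metric.mem_ball, dist_eq_norm]
    have h1 := hlip u hu (w i) hself
    rw [hGw] at h1
    have h2 : ‖u - w i‖ ≤ ρ / 2 := by
      rw [← dist_eq_norm]
      exact Metric.mem_closedBall.1 hu
    have h3 : ‖w j - w i‖ < ρ / 8 := by
      rw [← dist_eq_norm, dist_comm]
      exact hdist
    have h4 : ‖G u - w i‖ ≤ ‖G u - w j‖ + ‖w j - w i‖ := by
      have : G u - w i = (G u - w j) + (w j - w i) := by ring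
      rw [this]
      exact norm_add_le _ _
    linarith
  have hmapsTo : Set.MapsTo G (Metric.closedBall (w i) (ρ / 2)) (Metric.closedBall (w i) (ρ / 2)) :=
    fun u hu => Metric.ball_subset_closedBall (hmapsB u hu)
  have hcontr : ContractingWith (1 / 4 : NNReal) (hmapsTo.restrict G _ _) := by
    refine ⟨?_, ?_⟩
    · rw [← NNReal.coe_lt_coe]
      norm_num
    · apply LipschitzWith.of_dist_le_mul
      intro a b
      have h1 := hlip a.1 a.2 b.1 b.2
      rw [← dist_eq_norm, ← dist_eq_norm] at h1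
      have h2 : ((1 / 4 : NNReal) : ℝ) = 1 / 4 := by norm_num
      rw [h2]
      exact h1
  obtain ⟨z, hzB, hzfix, -, -⟩ := hcontr.exists_fixedPoint'
    (Metric.isClosed_closedBall.isComplete) hmapsTo hself (edist_ne_top _ _)
  have hzball : z ∈ Metric.ball (w i) (ρ / 2) := by
    have h1 := hmapsB z hzB
    rwa [hzfix] at h1
  have hconv : ∀ u ∈ Metric.closedBall (w i) (ρ / 2),
      Tendsto (fun k : ℕ => F^[N * k] u) atTop (𝓝 z) := by
    intro u hu
    have h1 : ∀ k : ℕ, G^[k] u ∈ Metric.closedBall (w i) (ρ / 2) ∧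
        ‖G^[k] u - z‖ ≤ (1 / 4) ^ k * ‖u - z‖ := by
      intro k
      induction k with
      | zero =>
        refine ⟨hu, ?_⟩
        rw [pow_zero, one_mul]
        exact le_rfl
      | succ k ih =>
        rw [Function.iterate_succ_apply']
        refine ⟨hmapsTo ih.1, ?_⟩
        have h2 := hlip _ ih.1 z hzB
        rw [hzfix] at h2
        calc ‖G (G^[k] u) - z‖ ≤ 1 / 4 * ‖G^[k] u - z‖ := h2
          _ ≤ 1 / 4 * ((1 / 4) ^ k * ‖u - z‖) := by
              apply mul_le_mul_of_nonneg_left ih.2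
              norm_num
          _ = (1 / 4) ^ (k + 1) * ‖u - z‖ := by rw [pow_succ]; ring
    have h3 : Tendsto (fun k : ℕ => (1 / 4 : ℝ) ^ k * ‖u - z‖) atTop (𝓝 0) := by
      have h4 := (tendsto_pow_atTop_nhds_zero_of_lt_one (r := (1 / 4 : ℝ)) (by norm_num)
        (by norm_num)).mul_const ‖u - z‖
      rwa [zero_mul] at h4
    rw [tendsto_iff_norm_sub_tendsto_zero]
    refine squeeze_zero (fun k => norm_nonneg _) (fun k => ?_) h3
    rw [Function.iterate_mul]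
    exact (h1 k).2
  refine ⟨(n + 1) * (i + 1), N, z, Metric.ball (w i) (ρ / 2), hNpos, hBW hzB, hzfix,
    Metric.isOpen_ball.mem_nhds hzball, Metric.ball_subset_closedBall.trans hBW,
    fun u hu => hconv u (Metric.ball_subset_closedBall hu), hconv _ hself⟩

end Pool.Agent.H35.NA
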