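import Mathlib
import Pool.Agent.H35.NA.Defs

/-!
# MODULE ROT: rotations of the sphere

`rot (a,b)` is the Moebius map with matrix `(a, -b̄; b, ā)`; points of the sphere are written
`pt x y = [x : y]` (H44/Fatou/Basic: `pt`, `pt_eq`, `pt_smul`, `tendsto_pt`; H44/Fatou/Pow: the
charts `ch i u`, `ch_cont`, `ch_open`).

PROOFS.
* `pt_unit_surj`: for `x = ∞` take `(1,0)`, for `x = z` take `(z t, t)`, `t = 1/sqrt(1+|z|²)`.
* `rot_pt`: cases `y = 0` (then `pt x 0 = ∞`, use `pt_smul` with `x`) and `y ≠ 0`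
  (`pt x y = x/y`, use `pt_smul` with `y`).
* `rot_continuous`: at `(r, x)`; `x = ch i u`, near `x` the points are `ch i u'` (`ch_open`, or use
  that `ch i` is an open embedding) and `rot r (ch i u')` is `pt` of a continuous nonvanishing pair:
  use `tendsto_pt`.  (Equivalently use local unit representatives as in `rot_open`.)
* two unit vectors `v`, `u` give the rotation parameter
      `tau v u = (v₁ ū₁ + conj v₂ u₂, v₂ ū₁ - conj v₁ u₂)`
  (first column of `U_v U_u*`), a unit vector, with `rot (tau v u) (pt u) = pt v`, continuous in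
  `(v, u)`, and `tau (U_r u) u = r` where `U_r u = (a u₁ - b̄ u₂, b u₁ + ā u₂)`.
* `pt` restricted to unit vectors is open: near `u` with `u₂ ≠ 0` use the continuous section
  `z ↦ (z t, t)`, `t = (u₂/|u₂|)/sqrt(1+|z|²)`, of `pt` through `u`; with `u₁ ≠ 0` use the chart at
  infinity `w ↦ (t, w t)`.  Together with `ch_open` this gives: for `u : Rot` and `N ∈ 𝓝 u`,
  `{pt v | v ∈ N} ∈ 𝓝 (pt u)` (lemma `unit_open` below).
* `rot_open`: `y = pt u`, `rot r y = pt (U_r u)`; for `v` near `U_r u` the parameter `tau v u` is near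
  `r` and maps `y` to `pt v`.  Apply `unit_open` at `U_r u`.
* `rot_adjust`: for `u'` near `u` the parameter `tau (U_r u) u'` is near `r` and maps `pt u'` to
  `rot r y`.  Apply `unit_open` at `u`.
* `rot_trans`: `tau v u`.
* `rot_injective`: `rot r` has the left inverse `rot (tau ...)`: with `r = (a,b)` the rotation with
  parameter `(ā, -b)` is inverse to `rot r` (`rot_pt` twice, `pt_smul`).
-/

set_option autoImplicit false

open Filter Topology OnePoint
open scoped ComplexConjugate
open Pool.Agent.H44.Fatou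

namespace Pool.Agent.H35.NA

theorem pt_unit_surj (x : Sph) : ∃ u : Rot, pt u.1.1 u.1.2 = x := by
  induction x using OnePoint.rec with
  | infty => exact ⟨oneR, by unfold oneR pt; simp⟩
  | coe z =>
    have h0 : (0 : ℝ) < 1 + ‖z‖ ^ 2 := by positivity
    have hs : Real.sqrt (1 + ‖z‖ ^ 2) ^ 2 = 1 + ‖z‖ ^ 2 := Real.sq_sqrt h0.le
    have hs0 : 0 < Real.sqrt (1 + ‖z‖ ^ 2) := Real.sqrt_pos.2 h0
    set t : ℝ := (Real.sqrt (1 + ‖z‖ ^ 2))⁻¹ with ht
    have ht0 : 0 < t := inv_pos.2 hs0
    have ht2 : (1 + ‖z‖ ^ 2) * t ^ 2 = 1 := by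
      rw [ht, inv_pow, hs]
      field_simp
    refine ⟨⟨(z * t, 1 * t), ?_⟩, ?_⟩
    · simp only [norm_mul, norm_one, Complex.norm_real, Real.norm_eq_abs, abs_of_pos ht0]
      nlinarith
    · have htc : (t : ℂ) ≠ 0 := by exact_mod_cast ht0.ne'
      change pt (z * t) (1 * t) = _
      rw [pt_smul htc]
      unfold pt
      rw [if_neg one_ne_zero, div_one]

theorem rot_pt (r : Rot) {x y : ℂ} (h : x ≠ 0 ∨ y ≠ 0) :
    rot r (pt x y) = pt (r.1.1 * x - conj r.1.2 * y) (r.1.2 * x + conj r.1.1 * y) := by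
  by_cases hy : y = 0
  · have hx : x ≠ 0 := by
      rcases h with h | h
      · exact h
      · exact absurd hy h
    have h1 : pt x y = ∞ := by unfold pt; rw [if_pos hy]
    rw [h1, hy, mul_zero, mul_zero, sub_zero, add_zero, pt_smul hx]
    rfl
  · have h1 : pt x y = ((x / y : ℂ) : OnePoint ℂ) := by unfold pt; rw [if_neg hy]
    rw [h1]
    have h2 : rot r ((x / y : ℂ) : OnePoint ℂ) =
        pt (r.1.1 * (x / y) - conj r.1.2) (r.1.2 * (x / y) + conj r.1.1) := rfl
    rw [h2, ← pt_smul hy]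
    congr 1
    · field_simp
    · field_simp

/-- multiplication of rotation parameters -/
private theorem ac_unit (r u : Rot) :
    ‖r.1.1 * u.1.1 - conj r.1.2 * u.1.2‖ ^ 2 + ‖r.1.2 * u.1.1 + conj r.1.1 * u.1.2‖ ^ 2 = 1 := by
  obtain ⟨⟨a, b⟩, hr⟩ := r
  obtain ⟨⟨x, y⟩, hu⟩ := u
  simp only at hr hu ⊢
  have hr' : a * conj a + b * conj b = 1 := by
    rw [Complex.mul_conj', Complex.mul_conj']
    exact_mod_cast hr
  have hu' : x * conj x + y * conj y = 1 := by
    rw [Complex.mul_conj', Complex.mul_conj']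
    exact_mod_cast hu
  apply Complex.ofReal_injective
  push_cast
  rw [← Complex.mul_conj', ← Complex.mul_conj']
  simp only [map_sub, map_add, map_mul, Complex.conj_conj]
  linear_combination (x * conj x + y * conj y) * hr' + hu'

private noncomputable def ac (r u : Rot) : Rot :=
  ⟨(r.1.1 * u.1.1 - conj r.1.2 * u.1.2, r.1.2 * u.1.1 + conj r.1.1 * u.1.2), ac_unit r u⟩

private noncomputable def iv (r : Rot) : Rot :=
  ⟨(conj r.1.1, -r.1.2), by
    have := r.2
    simpa using this⟩

private theorem ac_assoc (r s u : Rot) : ac (ac r s) u = ac r (ac s u) := by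
  apply Subtype.ext
  apply Prod.ext
  · simp only [ac, map_add, map_mul, Complex.conj_conj]
    ring
  · simp only [ac, map_sub, map_mul, Complex.conj_conj]
    ring

private theorem unit_eq (u : Rot) : u.1.1 * conj u.1.1 + u.1.2 * conj u.1.2 = 1 := by
  rw [Complex.mul_conj', Complex.mul_conj']
  exact_mod_cast u.2

private theorem ac_one (v : Rot) : ac v oneR = v := by
  apply Subtype.ext
  apply Prod.ext
  · simp [ac, oneR]
  · simp [ac, oneR]

private theorem one_ac (v : Rot) : ac oneR v = v := by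
  apply Subtype.ext
  apply Prod.ext
  · simp [ac, oneR]
  · simp [ac, oneR]

private theorem iv_ac (u : Rot) : ac (iv u) u = oneR := by
  apply Subtype.ext
  apply Prod.ext
  · simp only [ac, iv, oneR, map_neg]
    linear_combination unit_eq u
  · simp only [ac, iv, oneR, Complex.conj_conj]
    ring

private theorem ac_iv (u : Rot) : ac u (iv u) = oneR := by
  apply Subtype.ext
  apply Prod.ext
  · simp only [ac, iv, oneR]
    linear_combination unit_eq u
  · simp only [ac, iv, oneR]
    ring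

private theorem unit_ne (u : Rot) : u.1.1 ≠ 0 ∨ u.1.2 ≠ 0 := by
  by_contra hcon
  push Not at hcon
  have := u.2
  rw [hcon.1, hcon.2] at this
  simp at this

private theorem rot_ac (r u : Rot) :
    rot r (pt u.1.1 u.1.2) = pt (ac r u).1.1 (ac r u).1.2 := rot_pt r (unit_ne u)

private theorem continuous_ac : Continuous (fun p : Rot × Rot => ac p.1 p.2) := by
  unfold ac
  refine Continuous.subtype_mk ?_ _
  have hc : Continuous (fun z : ℂ => conj z) := Complex.continuous_conj
  have h1 : Continuous (fun p : Rot × Rot => p.1.1.1) := by fun_prop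
  have h2 : Continuous (fun p : Rot × Rot => p.1.1.2) := by fun_prop
  have h3 : Continuous (fun p : Rot × Rot => p.2.1.1) := by fun_prop
  have h4 : Continuous (fun p : Rot × Rot => p.2.1.2) := by fun_prop
  exact ((h1.mul h3).sub ((hc.comp h2).mul h4)).prodMk ((h2.mul h3).add ((hc.comp h1).mul h4))

private theorem continuous_iv : Continuous iv := by
  unfold iv
  refine Continuous.subtype_mk ?_ _
  have hc : Continuous (fun z : ℂ => conj z) := Complex.continuous_conj
  have h1 : Continuous (fun p : Rot => p.1.1) := by fun_prop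
  have h2 : Continuous (fun p : Rot => p.1.2) := by fun_prop
  exact (hc.comp h1).prodMk h2.neg

theorem unit_open (u : Rot) {N : Set Rot} (hN : N ∈ 𝓝 u) :
    {z : Sph | ∃ v ∈ N, pt v.1.1 v.1.2 = z} ∈ 𝓝 (pt u.1.1 u.1.2) := by
  have hsq : ∀ z : ℂ, (0 : ℝ) < Real.sqrt (1 + ‖z‖ ^ 2) := fun z =>
    Real.sqrt_pos.2 (by positivity)
  have hsqc : Continuous (fun z : ℂ => ((Real.sqrt (1 + ‖z‖ ^ 2) : ℝ) : ℂ)) := by
    apply Complex.continuous_ofReal.comp
    exact Real.continuous_sqrt.comp (continuous_const.add (continuous_norm.pow 2))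
  have hsqne : ∀ z : ℂ, ((Real.sqrt (1 + ‖z‖ ^ 2) : ℝ) : ℂ) ≠ 0 := fun z => by
    exact_mod_cast (hsq z).ne'
  by_cases hy : u.1.2 = 0
  · -- near infinity
    have hx : ‖u.1.1‖ = 1 := by
      have := u.2
      rw [hy, norm_zero] at this
      have h2 : ‖u.1.1‖ ^ 2 = 1 := by linarith
      have h3 : 0 ≤ ‖u.1.1‖ := norm_nonneg _
      nlinarith
    set T : ℂ → ℂ := fun w => u.1.1 / ((Real.sqrt (1 + ‖w‖ ^ 2) : ℝ) : ℂ) with hT
    have hTc : Continuous T := continuous_const.div hsqc hsqne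
    have hTn : ∀ w, (1 + ‖w‖ ^ 2) * ‖T w‖ ^ 2 = 1 := by
      intro w
      rw [hT]
      simp only [norm_div, hx, Complex.norm_real, Real.norm_eq_abs, abs_of_pos (hsq w)]
      rw [div_pow, Real.sq_sqrt (by positivity), one_pow]
      field_simp
    have hTne : ∀ w, T w ≠ 0 := by
      intro w h0
      have := hTn w
      rw [h0] at this
      simp at this
    set sec : ℂ → Rot := fun w => ⟨(T w, w * T w), by
      rw [norm_mul]
      have := hTn w
      nlinarith⟩ with hsec
    have hsc : Continuous sec := by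
      refine Continuous.subtype_mk ?_ _
      exact hTc.prodMk (continuous_id.mul hTc)
    have hs0 : sec 0 = u := by
      apply Subtype.ext
      apply Prod.ext
      · simp [hsec, hT]
      · simp [hsec, hy]
    have hV : sec ⁻¹' N ∈ 𝓝 (0 : ℂ) := by
      apply hsc.continuousAt.preimage_mem_nhds
      rw [hs0]
      exact hN
    have hinf : pt u.1.1 u.1.2 = ∞ := by unfold pt; rw [if_pos hy]
    rw [hinf, nhds_infty_eq, mem_sup, mem_map, mem_pure]
    refine ⟨?_, u, mem_of_mem_nhds hN, hinf⟩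
    rw [coclosedCompact_eq_cocompact, ← Metric.cobounded_eq_cocompact]
    have h1 := (tendsto_inv₀_cobounded' (α := ℂ)).eventually (self_mem_nhdsWithin)
    have h2 := (tendsto_inv₀_cobounded (α := ℂ)).eventually hV
    filter_upwards [h1, h2] with z hz1 hz2
    have hz : z ≠ 0 := by
      intro h0
      apply hz1
      simp [h0]
    refine ⟨sec z⁻¹, hz2, ?_⟩
    change pt (T z⁻¹) (z⁻¹ * T z⁻¹) = _
    have h3 : pt (T z⁻¹) (z⁻¹ * T z⁻¹) = pt (1 * T z⁻¹) (z⁻¹ * T z⁻¹) := by rw [one_mul]
    rw [h3, pt_smul (hTne _)]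
    unfold pt
    rw [if_neg (inv_ne_zero hz), one_div, inv_inv]
  · have hyn : 0 < ‖u.1.2‖ := norm_pos_iff.2 hy
    have hyc : ((‖u.1.2‖ : ℝ) : ℂ) ≠ 0 := by exact_mod_cast hyn.ne'
    set c : ℂ := u.1.2 / ((‖u.1.2‖ : ℝ) : ℂ) with hc
    have hcn : ‖c‖ = 1 := by
      rw [hc, norm_div, Complex.norm_real, Real.norm_eq_abs, abs_of_pos hyn, div_self hyn.ne']
    set T : ℂ → ℂ := fun w => c / ((Real.sqrt (1 + ‖w‖ ^ 2) : ℝ) : ℂ) with hT
    have hTc : Continuous T := continuous_const.div hsqc hsqne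
    have hTn : ∀ w, (1 + ‖w‖ ^ 2) * ‖T w‖ ^ 2 = 1 := by
      intro w
      rw [hT]
      simp only [norm_div, hcn, Complex.norm_real, Real.norm_eq_abs, abs_of_pos (hsq w)]
      rw [div_pow, Real.sq_sqrt (by positivity), one_pow]
      field_simp
    have hTne : ∀ w, T w ≠ 0 := by
      intro w h0
      have := hTn w
      rw [h0] at this
      simp at this
    set sec : ℂ → Rot := fun w => ⟨(w * T w, T w), by
      rw [norm_mul]
      have := hTn w
      nlinarith⟩ with hsec
    have hsc : Continuous sec := by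
      refine Continuous.subtype_mk ?_ _
      exact (continuous_id.mul hTc).prodMk hTc
    have hT0 : T (u.1.1 / u.1.2) = u.1.2 := by
      have h1 : Real.sqrt (1 + ‖u.1.1 / u.1.2‖ ^ 2) = ‖u.1.2‖⁻¹ := by
        rw [norm_div]
        have h2 : 1 + (‖u.1.1‖ / ‖u.1.2‖) ^ 2 = (‖u.1.2‖⁻¹) ^ 2 := by
          have := u.2
          field_simp
          linarith
        rw [h2, Real.sqrt_sq (by positivity)]
      rw [hT]
      simp only [h1, hc]
      push_cast
      field_simp
    have hs0 : sec (u.1.1 / u.1.2) = u := by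
      apply Subtype.ext
      apply Prod.ext
      · change u.1.1 / u.1.2 * T (u.1.1 / u.1.2) = u.1.1
        rw [hT0, div_mul_cancel₀ _ hy]
      · exact hT0
    have hV : sec ⁻¹' N ∈ 𝓝 (u.1.1 / u.1.2) := by
      apply hsc.continuousAt.preimage_mem_nhds
      rw [hs0]
      exact hN
    have hpt : pt u.1.1 u.1.2 = ((u.1.1 / u.1.2 : ℂ) : OnePoint ℂ) := by
      unfold pt; rw [if_neg hy]
    rw [hpt, nhds_coe_eq, mem_map]
    filter_upwards [hV] with z hz
    refine ⟨sec z, hz, ?_⟩
    change pt (z * T z) (T z) = _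
    have h3 : pt (z * T z) (T z) = pt (z * T z) (1 * T z) := by rw [one_mul]
    rw [h3, pt_smul (hTne _)]
    unfold pt
    rw [if_neg one_ne_zero, div_one]

private theorem oq_pt : IsOpenQuotientMap (fun u : Rot => (pt u.1.1 u.1.2 : Sph)) where
  surjective := pt_unit_surj
  continuous := by
    rw [continuous_iff_continuousAt]
    intro u
    have h1 : Continuous (fun p : Rot => p.1.1) := by fun_prop
    have h2 : Continuous (fun p : Rot => p.1.2) := by fun_prop
    exact tendsto_pt (h1.tendsto u) (h2.tendsto u) (unit_ne u)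
  isOpenMap := by
    rw [isOpenMap_iff_nhds_le]
    intro u S hS
    have h1 := unit_open u (mem_map.1 hS)
    refine mem_of_superset h1 ?_
    rintro z ⟨v, hv, rfl⟩
    exact hv

theorem rot_continuous : Continuous (fun p : Rot × Sph => rot p.1 p.2) := by
  have h1 : IsOpenQuotientMap (Prod.map (id : Rot → Rot)
      (fun u : Rot => (pt u.1.1 u.1.2 : Sph))) := IsOpenQuotientMap.id.prodMap oq_pt
  rw [← h1.continuous_comp_iff]
  have h2 : ((fun p : Rot × Sph => rot p.1 p.2) ∘ Prod.map (id : Rot → Rot)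
      (fun u : Rot => (pt u.1.1 u.1.2 : Sph))) =
      (fun u : Rot => (pt u.1.1 u.1.2 : Sph)) ∘ (fun p : Rot × Rot => ac p.1 p.2) := by
    funext p
    exact rot_ac p.1 p.2
  rw [h2]
  exact oq_pt.continuous.comp continuous_ac

theorem rot_one : rot oneR = id := by
  funext x
  obtain ⟨u, rfl⟩ := pt_unit_surj x
  rw [rot_ac, one_ac]
  rfl

private theorem rot_iv_rot (r : Rot) (x : Sph) : rot (iv r) (rot r x) = x := by
  obtain ⟨u, rfl⟩ := pt_unit_surj x
  rw [rot_ac, rot_ac, ← ac_assoc, iv_ac, one_ac]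

private theorem rot_rot_iv (r : Rot) (x : Sph) : rot r (rot (iv r) x) = x := by
  obtain ⟨u, rfl⟩ := pt_unit_surj x
  rw [rot_ac, rot_ac, ← ac_assoc, ac_iv, one_ac]

theorem rot_injective (r : Rot) : Function.Injective (rot r) :=
  Function.LeftInverse.injective (rot_iv_rot r)

theorem rot_surjective (r : Rot) : Function.Surjective (rot r) :=
  Function.RightInverse.surjective (rot_rot_iv r)

theorem rot_trans (x y : Sph) : ∃ r : Rot, rot r x = y := by
  obtain ⟨u, rfl⟩ := pt_unit_surj x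
  obtain ⟨v, rfl⟩ := pt_unit_surj y
  refine ⟨ac v (iv u), ?_⟩
  rw [rot_ac, ac_assoc, iv_ac, ac_one]

theorem rot_open (r : Rot) (y : Sph) {N : Set Rot} (hN : N ∈ 𝓝 r) :
    {z : Sph | ∃ s ∈ N, rot s y = z} ∈ 𝓝 (rot r y) := by
  obtain ⟨u, rfl⟩ := pt_unit_surj y
  have hcont : Continuous (fun v : Rot => ac v (iv u)) :=
    continuous_ac.comp (continuous_id.prodMk continuous_const)
  have hM : (fun v : Rot => ac v (iv u)) ⁻¹' N ∈ 𝓝 (ac r u) := by
    apply hcont.continuousAt.preimage_mem_nhds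
    rw [ac_assoc, ac_iv, ac_one]
    exact hN
  have h1 := unit_open (ac r u) hM
  rw [rot_ac]
  refine mem_of_superset h1 ?_
  rintro z ⟨v, hv, rfl⟩
  refine ⟨ac v (iv u), hv, ?_⟩
  rw [rot_ac, ac_assoc, iv_ac, ac_one]

theorem rot_adjust (r : Rot) (y : Sph) {N : Set Rot} (hN : N ∈ 𝓝 r) :
    ∀ᶠ y' in 𝓝 y, ∃ s ∈ N, rot s y' = rot r y := by
  obtain ⟨u, rfl⟩ := pt_unit_surj y
  have hcont : Continuous (fun v : Rot => ac (ac r u) (iv v)) :=
    continuous_ac.comp (continuous_const.prodMk continuous_iv)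
  have hM : (fun v : Rot => ac (ac r u) (iv v)) ⁻¹' N ∈ 𝓝 u := by
    apply hcont.continuousAt.preimage_mem_nhds
    rw [ac_assoc, ac_iv, ac_one]
    exact hN
  have h1 := unit_open u hM
  refine mem_of_superset h1 ?_
  rintro z ⟨v, hv, rfl⟩
  refine ⟨ac (ac r u) (iv v), hv, ?_⟩
  rw [rot_ac, rot_ac, ac_assoc, iv_ac, ac_one]

end Pool.Agent.H35.NA
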