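import Mathlib
import Pool.Agent.H35.NA.Defs

/-!
# The superattracting disc (module LIFTB)

`super_disc'` is `super_disc` of `Lift.lean`; see the header of that file for the proof.
-/

set_option autoImplicit false

open Filter Topology OnePoint
open scoped ComplexConjugate
open Pool.Agent.H44.Fatou

namespace Pool.Agent.H35.NA

/-- parallel vectors from a vanishing determinant -/
theorem super_parallel {p q p' q' : ℂ} (h : p ≠ 0 ∨ q ≠ 0) (hW : p' * q - p * q' = 0) :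
    ∃ μ : ℂ, p' = μ * p ∧ q' = μ * q := by
  rcases h with h | h
  · refine ⟨p' / p, by field_simp, ?_⟩
    rw [div_mul_eq_mul_div, eq_div_iff h]
    linear_combination -hW
  · refine ⟨q' / q, ?_, by field_simp⟩
    rw [div_mul_eq_mul_div, eq_div_iff h]
    linear_combination hW

theorem super_fst {f : ℂ → ℂ × ℂ} {f' : ℂ × ℂ} {x : ℂ} (h : HasDerivAt f f' x) :
    HasDerivAt (fun t => (f t).1) f'.1 x :=
  (hasFDerivAt_fst (𝕜 := ℂ) (p := f x)).comp_hasDerivAt x h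

theorem super_snd {f : ℂ → ℂ × ℂ} {f' : ℂ × ℂ} {x : ℂ} (h : HasDerivAt f f' x) :
    HasDerivAt (fun t => (f t).2) f'.2 x :=
  (hasFDerivAt_snd (𝕜 := ℂ) (p := f x)).comp_hasDerivAt x h

/-- the Euler relation of a lift: `Θ` and its radial derivative are parallel -/
theorem super_radial {Θ : ℂ × ℂ → ℂ × ℂ} {h : Sph → Sph} (hΘ : IsLift Θ h) {v : ℂ × ℂ}
    (hv : v ≠ 0) :
    (fderiv ℂ Θ v v).1 * (Θ v).2 = (Θ v).1 * (fderiv ℂ Θ v v).2 := by
  obtain ⟨hd, h0, hl⟩ := hΘ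
  -- the curve `t ↦ Θ ((1 + t) • v)`
  have hcurve : HasDerivAt (fun t : ℂ => Θ ((1 + t) • v)) (fderiv ℂ Θ v v) 0 := by
    have h1 : HasDerivAt (fun t : ℂ => (1 + t) • v) v 0 := by
      have h2 : HasDerivAt (fun t : ℂ => 1 + t) 1 0 := (hasDerivAt_id (0 : ℂ)).const_add 1
      have h3 := h2.smul_const v
      simpa using h3
    have h4 : HasFDerivAt Θ (fderiv ℂ Θ v) ((1 + (0 : ℂ)) • v) := by
      have : (1 + (0 : ℂ)) • v = v := by simp
      rw [this]
      exact (hd v).hasFDerivAt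
    exact h4.comp_hasDerivAt (0 : ℂ) h1
  have hc1 : HasDerivAt (fun t : ℂ => (Θ ((1 + t) • v)).1) (fderiv ℂ Θ v v).1 0 :=
    super_fst hcurve
  have hc2 : HasDerivAt (fun t : ℂ => (Θ ((1 + t) • v)).2) (fderiv ℂ Θ v v).2 0 :=
    super_snd hcurve
  have hd1 := (hc1.mul_const (Θ v).2).sub (hc2.const_mul (Θ v).1)
  have hzero : (fun t : ℂ => (Θ ((1 + t) • v)).1 * (Θ v).2 - (Θ v).1 * (Θ ((1 + t) • v)).2)
      =ᶠ[𝓝 0] fun _ => (0 : ℂ) := by
    have hne : ∀ᶠ t : ℂ in 𝓝 0, 1 + t ≠ 0 := by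
      have hcont : Tendsto (fun t : ℂ => 1 + t) (𝓝 0) (𝓝 (1 + 0)) :=
        (continuous_const.add continuous_id).tendsto 0
      exact hcont.eventually_ne (by simp)
    filter_upwards [hne] with t ht
    have hv' : (1 + t) • v ≠ 0 := smul_ne_zero ht hv
    have e1 := hl v hv
    have e2 := hl ((1 + t) • v) hv'
    have e3 : pt ((1 + t) • v).1 ((1 + t) • v).2 = pt v.1 v.2 := by
      rw [Prod.smul_fst, Prod.smul_snd, smul_eq_mul, smul_eq_mul, mul_comm (1 + t), mul_comm (1 + t)]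
      exact pt_smul ht
    rw [e3, e1] at e2
    have e4 := pt_eq e2
    linear_combination -e4
  have hd2 : HasDerivAt (fun t : ℂ => (Θ ((1 + t) • v)).1 * (Θ v).2
      - (Θ v).1 * (Θ ((1 + t) • v)).2) 0 0 :=
    (hasDerivAt_const (0 : ℂ) (0 : ℂ)).congr_of_eventuallyEq hzero
  have := hd1.unique hd2
  linear_combination this

theorem super_disc' {P Q : Polynomial ℂ} (hcop : IsCoprime P Q) {c : ℂ}
    (hW : (Wr P Q).eval c = 0) {h : Sph → Sph} (hh : SphHol h)
    (hfix : h (rat P Q (c : Sph)) = (c : Sph)) :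
    ∃ r₀ : ℝ, 0 < r₀ ∧ ∀ r : ℝ, 0 < r → r ≤ r₀ → ∀ z ∈ Metric.closedBall c r,
      ∃ z' ∈ Metric.ball c r, h (rat P Q (z : Sph)) = (z' : Sph) := by
  obtain ⟨Θ, hΘ⟩ := hh
  obtain ⟨hd, h0, hl⟩ := hΘ
  have hv : ∀ z : ℂ, ((P.eval z, Q.eval z) : ℂ × ℂ) ≠ 0 := by
    intro z hz
    rw [Prod.mk_eq_zero] at hz
    rcases coprime_eval hcop z with h1 | h1
    · exact h1 hz.1
    · exact h1 hz.2
  have hval : ∀ z : ℂ, h (rat P Q (z : Sph)) =
      pt (Θ (P.eval z, Q.eval z)).1 (Θ (P.eval z, Q.eval z)).2 := by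
    intro z
    rw [rat_coe]
    exact hl (P.eval z, Q.eval z) (hv z)
  -- value at `c`
  have hvc := hval c
  rw [hfix] at hvc
  have hG2 : (Θ (P.eval c, Q.eval c)).2 ≠ 0 := by
    intro h2
    unfold pt at hvc
    rw [if_pos h2] at hvc
    exact coe_ne_infty _ hvc
  have hbc : (Θ (P.eval c, Q.eval c)).1 / (Θ (P.eval c, Q.eval c)).2 = c := by
    unfold pt at hvc
    rw [if_neg hG2, coe_eq_coe] at hvc
    exact hvc.symm
  -- derivative of the curve
  have hG : HasDerivAt (fun z : ℂ => Θ (P.eval z, Q.eval z))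
      (fderiv ℂ Θ (P.eval c, Q.eval c) ((Polynomial.derivative P).eval c,
        (Polynomial.derivative Q).eval c)) c := by
    have h1 : HasDerivAt (fun z : ℂ => ((P.eval z, Q.eval z) : ℂ × ℂ))
        ((Polynomial.derivative P).eval c, (Polynomial.derivative Q).eval c) c :=
      (P.hasDerivAt c).prodMk (Q.hasDerivAt c)
    exact (hd (P.eval c, Q.eval c)).hasFDerivAt.comp_hasDerivAt c h1
  obtain ⟨μ, hμ1, hμ2⟩ : ∃ μ : ℂ, (Polynomial.derivative P).eval c = μ * P.eval c ∧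
      (Polynomial.derivative Q).eval c = μ * Q.eval c := by
    apply super_parallel (coprime_eval hcop c)
    unfold Wr at hW
    rw [Polynomial.eval_sub, Polynomial.eval_mul, Polynomial.eval_mul] at hW
    exact hW
  have hrad := super_radial ⟨hd, h0, hl⟩ (hv c)
  set w := fderiv ℂ Θ (P.eval c, Q.eval c) (P.eval c, Q.eval c) with hw
  have hGw : fderiv ℂ Θ (P.eval c, Q.eval c) ((Polynomial.derivative P).eval c,
      (Polynomial.derivative Q).eval c) = μ • w := by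
    rw [hw, ← ContinuousLinearMap.map_smul]
    congr 1
    rw [Prod.smul_mk, smul_eq_mul, smul_eq_mul, hμ1, hμ2]
  rw [hGw] at hG
  have hG1 : HasDerivAt (fun z : ℂ => (Θ (P.eval z, Q.eval z)).1) (μ * w.1) c :=
    super_fst hG
  have hG2' : HasDerivAt (fun z : ℂ => (Θ (P.eval z, Q.eval z)).2) (μ * w.2) c :=
    super_snd hG
  have hb : HasDerivAt (fun z : ℂ => (Θ (P.eval z, Q.eval z)).1 / (Θ (P.eval z, Q.eval z)).2)
      0 c := by
    have h5 := hG1.div hG2' hG2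
    have h6 : (μ * w.1 * (Θ (P.eval c, Q.eval c)).2 - (Θ (P.eval c, Q.eval c)).1 * (μ * w.2)) /
        (Θ (P.eval c, Q.eval c)).2 ^ 2 = 0 := by
      rw [div_eq_zero_iff]
      left
      linear_combination μ * hrad
    rw [h6] at h5
    exact h5
  have hlo := (hasDerivAt_iff_isLittleO.1 hb).def (by norm_num : (0 : ℝ) < 1 / 2)
  have hne : ∀ᶠ z : ℂ in 𝓝 c, (Θ (P.eval z, Q.eval z)).2 ≠ 0 :=
    hG2'.continuousAt.eventually_ne hG2
  obtain ⟨ε, hε, hball⟩ := Metric.eventually_nhds_iff.1 (hlo.and hne)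
  refine ⟨ε / 2, by positivity, fun r hr hrle z hz => ?_⟩
  rw [Metric.mem_closedBall] at hz
  obtain ⟨e1, e2⟩ := hball (lt_of_le_of_lt hz (by linarith))
  refine ⟨(Θ (P.eval z, Q.eval z)).1 / (Θ (P.eval z, Q.eval z)).2, ?_, ?_⟩
  · rw [Metric.mem_ball, dist_eq_norm]
    rw [hbc, smul_zero, sub_zero] at e1
    rw [dist_eq_norm] at hz
    calc _ ≤ 1 / 2 * ‖z - c‖ := e1
      _ ≤ 1 / 2 * r := by linarith
      _ < r := by linarith
  · rw [hval z]
    unfold pt
    rw [if_neg e2]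

end Pool.Agent.H35.NA
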