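import Mathlib
import Pool.Agent.H35.NA.Rotations
import Pool.Agent.H35.NA.Super

/-!
# MODULE LIFT: holomorphic lifts to homogeneous coordinates, and the superattracting disc

PROOFS.
* `SphHol.comp`: compose the lifts.  `sphHol_rot`: the linear map of `rot_pt` (its determinant is 1,
  so it is nonzero off 0).  `sphHol_rat`: with `d = dg P Q` the lift is
  `(x,y) ↦ (∑_{i ≤ d} P_i x^i y^(d-i), ∑_{i ≤ d} Q_i x^i y^(d-i))`; for `y ≠ 0` it equals
  `y^d (P(x/y), Q(x/y))` (nonzero by `coprime_eval`, and `pt_smul`), for `y = 0` it equals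
  `x^d (P_d, Q_d)` (nonzero by `coeff_dg`).  `sphHol_run`: induction.
* `super_disc`: let `Θ` be a lift of `h`, `v(z) = (P z, Q z)`, `G(z) = Θ(v(z)) = (G₁, G₂)`, so that
  `h (rat P Q z) = pt G₁ G₂`.  At `c` the value is `c`, so `G₂(c) ≠ 0` and `b = G₁/G₂` is
  differentiable near `c`, `b(c) = c`.  Claim `b'(c) = 0`, i.e. `G₁' G₂ = G₁ G₂'` at `c`.
  As `Wr(c) = P'(c) Q(c) - P(c) Q'(c) = 0` and `v(c) ≠ 0` there is `μ` with `v'(c) = μ v(c)`.  For all
  `t ≠ -1`, `pt (Θ((1+t) v))= h (pt ((1+t) v)) = h (pt v) = pt (Θ v)`, so by `pt_eq`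
  `Θ₁((1+t)v) Θ₂(v) = Θ₁(v) Θ₂((1+t)v)`; differentiating at `t = 0`,
  `(DΘ_v v)₁ Θ₂(v) = Θ₁(v) (DΘ_v v)₂`.  Since `G'(c) = DΘ_v (v'(c)) = μ DΘ_v v` the claim follows.
  Finally `b(z) - c = o(z - c)` gives `r₀` with `‖b z - c‖ ≤ ‖z - c‖/2` for `‖z - c‖ ≤ r₀` (and
  `G₂ ≠ 0` there).
-/

set_option autoImplicit false

open Filter Topology OnePoint
open scoped ComplexConjugate
open Pool.Agent.H44.Fatou

namespace Pool.Agent.H35.NA

theorem sphHol_id : SphHol (fun x => x) :=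
  ⟨fun v => v, differentiable_id, fun _ hv => hv, fun _ _ => rfl⟩

theorem SphHol.comp {f h : Sph → Sph} (hf : SphHol f) (hh : SphHol h) :
    SphHol (fun x => f (h x)) := by
  obtain ⟨Φ, h1, h2, h3⟩ := hf
  obtain ⟨Ψ, k1, k2, k3⟩ := hh
  refine ⟨fun v => Φ (Ψ v), h1.comp k1, fun v hv => h2 _ (k2 v hv), fun v hv => ?_⟩
  simp only []
  rw [k3 v hv, h3 _ (k2 v hv)]

theorem sphHol_rot (r : Rot) : SphHol (rot r) := by
  have hr : conj r.1.1 * r.1.1 + conj r.1.2 * r.1.2 = 1 := by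
    rw [Complex.conj_mul', Complex.conj_mul']
    exact_mod_cast r.2
  refine ⟨fun v => (r.1.1 * v.1 - conj r.1.2 * v.2, r.1.2 * v.1 + conj r.1.1 * v.2), ?_, ?_, ?_⟩
  · fun_prop
  · intro v hv h0
    rw [Prod.mk_eq_zero] at h0
    obtain ⟨e1, e2⟩ := h0
    apply hv
    ext
    · calc v.1 = (conj r.1.1 * r.1.1 + conj r.1.2 * r.1.2) * v.1 := by rw [hr, one_mul]
        _ = conj r.1.1 * (r.1.1 * v.1 - conj r.1.2 * v.2) +
            conj r.1.2 * (r.1.2 * v.1 + conj r.1.1 * v.2) := by ring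
        _ = 0 := by rw [e1, e2]; ring
    · calc v.2 = (conj r.1.1 * r.1.1 + conj r.1.2 * r.1.2) * v.2 := by rw [hr, one_mul]
        _ = r.1.1 * (r.1.2 * v.1 + conj r.1.1 * v.2) -
            r.1.2 * (r.1.1 * v.1 - conj r.1.2 * v.2) := by ring
        _ = 0 := by rw [e1, e2]; ring
  · intro v hv
    have h : v.1 ≠ 0 ∨ v.2 ≠ 0 := by
      by_contra hcon
      push Not at hcon
      exact hv (Prod.ext hcon.1 hcon.2)
    exact rot_pt r h

/-- the homogenization of `P` in degree `d` -/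
private noncomputable def hom (d : ℕ) (P : Polynomial ℂ) (v : ℂ × ℂ) : ℂ :=
  ∑ i ∈ Finset.range (d + 1), P.coeff i * (v.1 ^ i * v.2 ^ (d - i))

private theorem hom_of_ne {d : ℕ} {P : Polynomial ℂ} (hP : P.natDegree ≤ d) {v : ℂ × ℂ}
    (hv : v.2 ≠ 0) : hom d P v = P.eval (v.1 / v.2) * v.2 ^ d := by
  unfold hom
  rw [Polynomial.eval_eq_sum_range' (Nat.lt_succ_of_le hP), Finset.sum_mul]
  refine Finset.sum_congr rfl (fun i hi => ?_)
  have hi' : i ≤ d := Nat.lt_succ_iff.1 (Finset.mem_range.1 hi)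
  have h1 : v.2 ^ d = v.2 ^ i * v.2 ^ (d - i) := by
    rw [← pow_add]
    congr 1
    omega
  rw [h1, div_pow]
  field_simp

private theorem hom_of_eq {d : ℕ} {P : Polynomial ℂ} {v : ℂ × ℂ}
    (hv : v.2 = 0) : hom d P v = P.coeff d * v.1 ^ d := by
  unfold hom
  rw [Finset.sum_eq_single d]
  · simp
  · intro i hi hid
    have hi' : i ≤ d := Nat.lt_succ_iff.1 (Finset.mem_range.1 hi)
    rw [hv, zero_pow (by omega), mul_zero, mul_zero]
  · intro h
    exact absurd (Finset.mem_range.2 (Nat.lt_succ_self d)) h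

private theorem hom_diff (d : ℕ) (P : Polynomial ℂ) : Differentiable ℂ (hom d P) := by
  unfold hom
  fun_prop

theorem sphHol_rat {P Q : Polynomial ℂ} (hcop : IsCoprime P Q) : SphHol (rat P Q) := by
  have dP : P.natDegree ≤ dg P Q := le_max_left _ _
  have dQ : Q.natDegree ≤ dg P Q := le_max_right _ _
  refine ⟨fun v => (hom (dg P Q) P v, hom (dg P Q) Q v), ?_, ?_, ?_⟩
  · exact (hom_diff _ _).prodMk (hom_diff _ _)
  · intro v hv h0
    rw [Prod.mk_eq_zero] at h0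
    obtain ⟨e1, e2⟩ := h0
    by_cases h2 : v.2 = 0
    · have h1 : v.1 ≠ 0 := fun h => hv (Prod.ext h h2)
      rw [hom_of_eq h2] at e1 e2
      have h3 : v.1 ^ dg P Q ≠ 0 := pow_ne_zero _ h1
      rcases coeff_dg hcop with h | h
      · exact (mul_ne_zero h h3) e1
      · exact (mul_ne_zero h h3) e2
    · rw [hom_of_ne dP h2] at e1
      rw [hom_of_ne dQ h2] at e2
      have h3 : v.2 ^ dg P Q ≠ 0 := pow_ne_zero _ h2
      rcases coprime_eval hcop (v.1 / v.2) with h | h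
      · exact (mul_ne_zero h h3) e1
      · exact (mul_ne_zero h h3) e2
  · intro v hv
    by_cases h2 : v.2 = 0
    · have h1 : v.1 ≠ 0 := fun h => hv (Prod.ext h h2)
      simp only [hom_of_eq h2]
      rw [pt_smul (pow_ne_zero _ h1)]
      have h3 : pt v.1 v.2 = ∞ := by
        unfold pt
        rw [if_pos h2]
      rw [h3, rat_infty]
    · simp only [hom_of_ne dP h2, hom_of_ne dQ h2]
      rw [pt_smul (pow_ne_zero _ h2)]
      have h3 : pt v.1 v.2 = ((v.1 / v.2 : ℂ) : Sph) := by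
        unfold pt
        rw [if_neg h2]
      rw [h3, rat_coe]

theorem sphHol_run {g : Sph → Sph} (hg : SphHol g) (w : List Rot) : SphHol (run g w) := by
  induction w with
  | nil => exact sphHol_id
  | cons r w ih => exact ih.comp ((sphHol_rot r).comp hg)

theorem super_disc {P Q : Polynomial ℂ} (hcop : IsCoprime P Q) {c : ℂ}
    (hW : (Wr P Q).eval c = 0) {h : Sph → Sph} (hh : SphHol h)
    (hfix : h (rat P Q (c : Sph)) = (c : Sph)) :
    ∃ r₀ : ℝ, 0 < r₀ ∧ ∀ r : ℝ, 0 < r → r ≤ r₀ → ∀ z ∈ Metric.closedBall c r,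
      ∃ z' ∈ Metric.ball c r, h (rat P Q (z : Sph)) = (z' : Sph) := by
  exact super_disc' hcop hW hh hfix

end Pool.Agent.H35.NA
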