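import Mathlib
import Pool.Agent.H35.NA.Lift
import Pool.Agent.H35.NA.Plane

/-!
# Every point of a proper trap is attracted to an attracting cycle
-/

set_option autoImplicit false

open Filter Topology OnePoint
open scoped ComplexConjugate
open Pool.Agent.H44.Fatou

namespace Pool.Agent.H35.NA

theorem attr_of_iterate {f : Sph → Sph} (hf : Continuous f) {c : Sph} (m : ℕ)
    (h : Attr f (f^[m] c)) : Attr f c := by
  obtain ⟨z, n, hn, hz, ⟨U, hU, hconv⟩, ht⟩ := h
  obtain ⟨n', rfl⟩ : ∃ n', n = n' + 1 := ⟨n - 1, by omega⟩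
  have hms : ∀ x, f^[m] (f^[n' * m] x) = f^[(n' + 1) * m] x := by
    intro x
    rw [← Function.iterate_add_apply]
    congr 1
    ring
  have hsm : ∀ x, f^[n' * m] (f^[m] x) = f^[(n' + 1) * m] x := by
    intro x
    rw [← Function.iterate_add_apply]
    congr 1
    ring
  have hzm : ∀ k : ℕ, f^[(n' + 1) * k] z = z := by
    intro k
    rw [Function.iterate_mul]
    exact Function.iterate_fixed hz k
  refine ⟨f^[n' * m] z, n' + 1, hn, ?_, ⟨(f^[m]) ⁻¹' U, ?_, ?_⟩, ?_⟩
  · rw [← Function.iterate_add_apply, Nat.add_comm, Function.iterate_add_apply, hz]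
  · apply (hf.iterate m).continuousAt.preimage_mem_nhds
    rw [hms, hzm]
    exact hU
  · intro w hw
    have h1 := hconv _ hw
    have h2 : Tendsto (fun k : ℕ => f^[n' * m] (f^[(n' + 1) * k] (f^[m] w))) atTop
        (𝓝 (f^[n' * m] z)) := ((hf.iterate (n' * m)).tendsto z).comp h1
    have h3 : (fun k : ℕ => f^[n' * m] (f^[(n' + 1) * k] (f^[m] w)))
        = fun k : ℕ => (fun j : ℕ => f^[(n' + 1) * j] w) (k + m) := by
      funext k
      simp only
      rw [← Function.iterate_add_apply, ← Function.iterate_add_apply]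
      congr 1
      ring
    rw [h3] at h2
    exact (tendsto_add_atTop_iff_nat m).1 h2
  · have h2 : Tendsto (fun k : ℕ => f^[n' * m] (f^[(n' + 1) * k] (f^[m] c))) atTop
        (𝓝 (f^[n' * m] z)) := ((hf.iterate (n' * m)).tendsto z).comp ht
    have h3 : (fun k : ℕ => f^[n' * m] (f^[(n' + 1) * k] (f^[m] c)))
        = fun k : ℕ => (fun j : ℕ => f^[(n' + 1) * j] c) (k + m) := by
      funext k
      simp only
      rw [← Function.iterate_add_apply, ← Function.iterate_add_apply]
      congr 1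
      ring
    rw [h3] at h2
    exact (tendsto_add_atTop_iff_nat m).1 h2

/-- the inverse rotation -/
noncomputable def invR (r : Rot) : Rot := ⟨(conj r.1.1, -r.1.2), by
  have := r.2
  simpa using this⟩

theorem pt_ne_zero_unit (u : Rot) : u.1.1 ≠ 0 ∨ u.1.2 ≠ 0 := by
  by_contra h
  push Not at h
  have := u.2
  rw [h.1, h.2] at this
  simp at this

theorem unit_mul_conj (r : Rot) : r.1.1 * conj r.1.1 + r.1.2 * conj r.1.2 = 1 := by
  have := r.2
  rw [Complex.mul_conj, Complex.mul_conj, Complex.normSq_eq_norm_sq, Complex.normSq_eq_norm_sq]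
  exact_mod_cast this

theorem rot_inv_left (r : Rot) (x : Sph) : rot (invR r) (rot r x) = x := by
  obtain ⟨u, rfl⟩ := pt_unit_surj x
  have h1 := unit_mul_conj r
  have hne := pt_ne_zero_unit u
  rw [rot_pt r hne, rot_pt]
  · have e1 : (invR r).1.1 * (r.1.1 * u.1.1 - conj r.1.2 * u.1.2)
        - conj (invR r).1.2 * (r.1.2 * u.1.1 + conj r.1.1 * u.1.2) = u.1.1 := by
      simp only [invR, map_neg]
      linear_combination u.1.1 * h1
    have e2 : (invR r).1.2 * (r.1.1 * u.1.1 - conj r.1.2 * u.1.2)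
        + conj (invR r).1.1 * (r.1.2 * u.1.1 + conj r.1.1 * u.1.2) = u.1.2 := by
      simp only [invR, Complex.conj_conj]
      linear_combination u.1.2 * h1
    rw [e1, e2]
  · by_contra hcon
    push Not at hcon
    obtain ⟨c1, c2⟩ := hcon
    rcases hne with h | h
    · apply h
      linear_combination (conj r.1.1) * c1 + (conj r.1.2) * c2 - u.1.1 * h1
    · apply h
      linear_combination (-r.1.2) * c1 + r.1.1 * c2 - u.1.2 * h1

theorem invR_invR (r : Rot) : invR (invR r) = r := by
  apply Subtype.ext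
  simp [invR]

theorem rot_inv_right (r : Rot) (x : Sph) : rot r (rot (invR r) x) = x := by
  have := rot_inv_left (invR r) x
  rwa [invR_invR] at this

theorem attr_of_trap {H : Sph → Sph} (hc : Continuous H) (hH : SphHol H) {D : Set Sph}
    (hD : IsOpen D) (hne : closure D ≠ Set.univ) (hmap : ∀ x ∈ closure D, H x ∈ D) {x : Sph}
    (hx : x ∈ D) : Attr H x := by
  obtain ⟨x₀, hx₀⟩ : ∃ x₀, x₀ ∉ closure D := by
    by_contra hcon
    push Not at hcon
    exact hne (Set.eq_univ_of_forall hcon)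
  obtain ⟨r, hr⟩ := rot_trans x₀ (∞ : Sph)
  set q := invR r with hq
  have hrot : ∀ r : Rot, Continuous (rot r) := fun r =>
    rot_continuous.comp (Continuous.prodMk continuous_const continuous_id)
  have hninf : ∀ y ∈ closure D, rot r y ≠ ∞ := by
    intro y hy h
    have h1 : y = x₀ := rot_injective r (h.trans hr.symm)
    exact hx₀ (h1 ▸ hy)
  set φ : ℂ → Sph := fun w => rot q (w : Sph) with hφ
  have hφc : Continuous φ := (hrot q).comp continuous_coe
  have hrφ : ∀ w : ℂ, rot r (φ w) = (w : Sph) := fun w => rot_inv_right r _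
  have hφr : ∀ (y : Sph) (w : ℂ), rot r y = (w : Sph) → φ w = y := by
    intro y w h
    rw [hφ]
    simp only
    rw [← h]
    exact rot_inv_left r y
  have hex : ∀ y ∈ closure D, ∃ w : ℂ, rot r y = (w : Sph) := by
    intro y hy
    obtain ⟨w, hw⟩ := OnePoint.ne_infty_iff_exists.1 (hninf y hy)
    exact ⟨w, hw.symm⟩
  -- compactness
  have hcompact : IsCompact {w : ℂ | φ w ∈ closure D} := by
    have h1 : IsCompact (rot r '' closure D) := isClosed_closure.isCompact.image (hrot r)
    have h2 : IsOpen (rot r '' closure D)ᶜ := h1.isClosed.isOpen_compl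
    have h3 : (∞ : Sph) ∈ (rot r '' closure D)ᶜ := by
      rintro ⟨y, hy, h⟩
      exact hninf y hy h
    have h4 := ((OnePoint.isOpen_iff_of_mem h3).1 h2).2
    convert h4 using 1
    ext w
    simp only [Set.mem_ofPred_eq, Set.mem_compl_iff, Set.mem_preimage, Set.mem_image, not_not]
    constructor
    · intro h
      exact ⟨φ w, h, hrφ w⟩
    · rintro ⟨y, hy, h⟩
      rw [hφr y w h]
      exact hy
  set W : Set ℂ := {w | φ w ∈ D} with hW
  set K : Set ℂ := {w | φ w ∈ H '' closure D} with hK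
  have hWo : IsOpen W := hD.preimage hφc
  have hWb : Bornology.IsBounded W :=
    hcompact.isBounded.subset (fun w hw => subset_closure hw)
  have himg : H '' closure D ⊆ D := by
    rintro _ ⟨y, hy, rfl⟩
    exact hmap y hy
  have hKW : K ⊆ W := fun w hw => himg hw
  have hKc : IsCompact K := by
    apply hcompact.of_isClosed_subset
    · exact ((isClosed_closure.isCompact.image hc).isClosed).preimage hφc
    · intro w hw
      exact subset_closure (himg hw)
  obtain ⟨Ψ, hΨd, hΨ0, hΨ⟩ := (sphHol_rot r).comp (hH.comp (sphHol_rot q))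
  have hcoe : ∀ w : ℂ, (w : Sph) = pt w 1 := by
    intro w
    unfold pt
    rw [if_neg one_ne_zero, div_one]
  have hlift : ∀ w : ℂ, rot r (H (φ w)) = pt (Ψ (w, 1)).1 (Ψ (w, 1)).2 := by
    intro w
    have h1 := hΨ (w, 1) (by simp)
    simp only at h1
    rw [← h1, ← hcoe]
  set F : ℂ → ℂ := fun w => (Ψ (w, 1)).1 / (Ψ (w, 1)).2 with hF
  have h2ne : ∀ w ∈ W, (Ψ (w, 1)).2 ≠ 0 := by
    intro w hw h
    have h1 : H (φ w) ∈ D := hmap _ (subset_closure hw)
    apply hninf _ (subset_closure h1)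
    rw [hlift w]
    unfold pt
    rw [if_pos h]
  have hFeq : ∀ w ∈ W, φ (F w) = H (φ w) := by
    intro w hw
    apply hφr
    rw [hlift w]
    unfold pt
    rw [if_neg (h2ne w hw)]
  have hFd : DifferentiableOn ℂ F W := by
    intro w hw
    have h1 : DifferentiableAt ℂ (fun w : ℂ => Ψ (w, 1)) w := by
      exact DifferentiableAt.comp w (hΨd (w, 1))
        (DifferentiableAt.prodMk differentiableAt_id (differentiableAt_const _))
    exact (h1.fst.div h1.snd (h2ne w hw)).differentiableWithinAt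
  have hFK : ∀ w ∈ W, F w ∈ K := by
    intro w hw
    change φ (F w) ∈ H '' closure D
    rw [hFeq w hw]
    exact ⟨φ w, subset_closure hw, rfl⟩
  have hiterW : ∀ (k : ℕ) (w : ℂ), w ∈ W → F^[k] w ∈ W ∧ φ (F^[k] w) = H^[k] (φ w) := by
    intro k
    induction k with
    | zero => intro w hw; exact ⟨hw, rfl⟩
    | succ k ih =>
      intro w hw
      obtain ⟨h1, h2⟩ := ih w hw
      rw [Function.iterate_succ_apply', Function.iterate_succ_apply']
      exact ⟨hKW (hFK _ h1), by rw [hFeq _ h1, h2]⟩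
  obtain ⟨w₀, hw₀⟩ := hex x (subset_closure hx)
  have hφw₀ : φ w₀ = x := hφr x w₀ hw₀
  have hw₀W : w₀ ∈ W := by
    change φ w₀ ∈ D
    rw [hφw₀]; exact hx
  obtain ⟨m, N, z, U, hN, hzW, hzN, hU, hUW, hconv, hlast⟩ :=
    contr_plane hWo hWb hFd hKc hKW hFK hw₀W
  apply attr_of_iterate hc m
  refine ⟨φ z, N, hN, ?_, ⟨φ '' U, ?_, ?_⟩, ?_⟩
  · rw [← (hiterW N z hzW).2, hzN]
  · have h1 : ((↑) : ℂ → Sph) '' U ∈ 𝓝 (rot r (φ z)) := by
      rw [hrφ, nhds_coe_eq]
      exact image_mem_map hU
    have h2 := (hrot r).continuousAt.preimage_mem_nhds h1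
    apply mem_of_superset h2
    rintro y ⟨w, hw, hwy⟩
    exact ⟨w, hw, hφr y w hwy.symm⟩
  · rintro _ ⟨w, hw, rfl⟩
    have h1 := (hφc.tendsto z).comp (hconv w hw)
    apply h1.congr
    intro k
    exact (hiterW _ w (hUW hw)).2
  · have h1 := (hφc.tendsto z).comp hlast
    apply h1.congr
    intro k
    obtain ⟨h2, h3⟩ := hiterW m w₀ hw₀W
    have h4 := (hiterW (N * k) _ h2).2
    simp only [Function.comp_apply]
    rw [h4, h3, hφw₀]

end Pool.Agent.H35.NA
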