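import Mathlib

/-!
# MODULE COUNT: a cyclic word that steers every newly born point into the absorbing set

`path N f W i m x` applies to `x` the maps at the positions `i, i+1, ..., i+m-1` (positions are read
modulo `N`), the letter at position `j` being `W j`.

PROOF of `exists_cyclic_word` (`N = L+1`, `q = card β`).  (1) For every `i` and every `x`, the number of
words `w : Fin L → β` such that the successive application of the maps at the positions
`i, ..., i+L-1` with the letters `w 0, ..., w (L-1)` does not lead `x` into `A` is at most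
`(q-1)^L`: induction on `L` with `Fin.consEquiv`/`Fin.cons` (for at least one first letter the point
enters `A` and stays there, for the other at most `q-1` letters use the induction hypothesis; state it for
arbitrary sequences of maps `h : ℕ → β → X → X` with the two properties).
(2) For `W : Fin (L+1) → β` and `j < L+1` the pair `(W j, (W (j+1+i))_{i < L})` determines `W`, so the
number of `W` for which some `v ∈ V j (W j)` is not steered into `A` along the `L` positions after `j` is
at most `q s (q-1)^L`.  (3) Summing over `j`: fewer than `q^(L+1)` words are bad.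
Extend `W` to `ℕ → β` by `W (j % (L+1))`.

PROOF of `exists_large`: `(L+1) s ((q-1)/q)^L → 0`.
-/

set_option autoImplicit false

namespace Pool.Agent.H35.NA

/-- apply the maps at the positions `i, ..., i+m-1` (modulo `N`) with the letters of `W` -/
def path {X β : Type*} (N : ℕ) (f : ℕ → β → X → X) (W : ℕ → β) : ℕ → ℕ → X → X
  | _, 0, x => x
  | i, m + 1, x => path N f W (i + 1) m (f (i % N) (W (i % N)) x)

/-- successive application of the maps `h 0, h 1, ...` with the letters of `w` -/
private def cwApp {X β : Type*} : ∀ (m : ℕ), (ℕ → β → X → X) → (Fin m → β) → X → X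
  | 0, _, _, x => x
  | m + 1, h, w, x => cwApp m (fun i => h (i + 1)) (Fin.tail w) (h 0 (w 0) x)

private theorem cwApp_mem {X β : Type*} (A : Set X) : ∀ (m : ℕ) (h : ℕ → β → X → X)
    (w : Fin m → β) (x : X), (∀ i b, ∀ y ∈ A, h i b y ∈ A) → x ∈ A → cwApp m h w x ∈ A := by
  intro m
  induction m with
  | zero => intro h w x _ hx; exact hx
  | succ m ih =>
    intro h w x hA hx
    exact ih _ _ _ (fun i b y hy => hA (i + 1) b y hy) (hA 0 _ _ hx)

open Classical in
private theorem cw_count {X β : Type*} [Fintype β] (A : Set X) : ∀ (m : ℕ) (h : ℕ → β → X → X)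
    (x : X), (∀ i b, ∀ y ∈ A, h i b y ∈ A) → (∀ i y, ∃ b, h i b y ∈ A) →
    (Finset.univ.filter fun w : Fin m → β => cwApp m h w x ∉ A).card
      ≤ (Fintype.card β - 1) ^ m := by
  intro m
  induction m with
  | zero =>
    intro h x _ _
    refine (Finset.card_filter_le _ _).trans ?_
    simp
  | succ m ih =>
    intro h x hA hS
    set S : Finset β := Finset.univ.filter (fun b => h 0 b x ∉ A) with hSdef
    have hsub : (Finset.univ.filter fun w : Fin (m + 1) → β => cwApp (m + 1) h w x ∉ A) ⊆
        S.biUnion (fun b => (Finset.univ.filter fun w' : Fin m → β =>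
          cwApp m (fun i => h (i + 1)) w' (h 0 b x) ∉ A).image
            (fun w' => (Fin.cons b w' : Fin (m + 1) → β))) := by
      intro w hw
      rw [Finset.mem_filter] at hw
      rw [Finset.mem_biUnion]
      refine ⟨w 0, ?_, ?_⟩
      · rw [hSdef, Finset.mem_filter]
        refine ⟨Finset.mem_univ _, fun hcon => hw.2 ?_⟩
        exact cwApp_mem A m _ _ _ (fun i b y hy => hA (i + 1) b y hy) hcon
      · rw [Finset.mem_image]
        refine ⟨Fin.tail w, ?_, Fin.cons_self_tail w⟩
        rw [Finset.mem_filter]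
        exact ⟨Finset.mem_univ _, hw.2⟩
    have hcard : S.card ≤ Fintype.card β - 1 := by
      obtain ⟨b, hb⟩ := hS 0 x
      have h1 : S ⊂ Finset.univ := by
        rw [Finset.ssubset_univ_iff]
        intro hcon
        have h2 : b ∈ S := by rw [hcon]; exact Finset.mem_univ _
        rw [hSdef, Finset.mem_filter] at h2
        exact h2.2 hb
      have h3 := Finset.card_lt_card h1
      rw [Finset.card_univ] at h3
      omega
    calc (Finset.univ.filter fun w : Fin (m + 1) → β => cwApp (m + 1) h w x ∉ A).card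
        ≤ _ := Finset.card_le_card hsub
      _ ≤ ∑ b ∈ S, _ := Finset.card_biUnion_le
      _ ≤ ∑ _b ∈ S, (Fintype.card β - 1) ^ m := by
          apply Finset.sum_le_sum
          intro b _
          refine Finset.card_image_le.trans ?_
          exact ih _ _ (fun i b y hy => hA (i + 1) b y hy) (fun i y => hS (i + 1) y)
      _ = S.card * (Fintype.card β - 1) ^ m := by rw [Finset.sum_const, smul_eq_mul]
      _ ≤ (Fintype.card β - 1) * (Fintype.card β - 1) ^ m := Nat.mul_le_mul_right _ hcard
      _ = (Fintype.card β - 1) ^ (m + 1) := by rw [pow_succ, mul_comm]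

private theorem path_eq_cwApp {X β : Type*} (N : ℕ) (f : ℕ → β → X → X) (W : ℕ → β) :
    ∀ (m i : ℕ) (x : X), path N f W i m x =
      cwApp m (fun t b y => f ((i + t) % N) b y) (fun t : Fin m => W ((i + (t : ℕ)) % N)) x := by
  intro m
  induction m with
  | zero => intro i x; rfl
  | succ m ih =>
    intro i x
    rw [path, ih (i + 1), cwApp]
    have h1 : (fun t (b : β) (y : X) => f ((i + 1 + t) % N) b y) =
        fun t => (fun t (b : β) (y : X) => f ((i + t) % N) b y) (t + 1) := by
      funext t b y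
      show f ((i + 1 + t) % N) b y = f ((i + (t + 1)) % N) b y
      rw [Nat.add_assoc, Nat.add_comm 1 t]
    have h2 : (fun t : Fin m => W ((i + 1 + (t : ℕ)) % N)) =
        Fin.tail (fun t : Fin (m + 1) => W ((i + (t : ℕ)) % N)) := by
      funext t
      show W ((i + 1 + (t : ℕ)) % N) = W ((i + ((t.succ : Fin (m + 1)) : ℕ)) % N)
      rw [Fin.val_succ, Nat.add_assoc, Nat.add_comm 1 (t : ℕ)]
    rw [h1, h2]
    simp only [Fin.val_zero, Nat.add_zero]

theorem exists_cyclic_word {X β : Type*} [Fintype β] [Nonempty β] (A : Set X) (s L : ℕ)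
    (f : ℕ → β → X → X) (V : ℕ → β → Finset X)
    (hA : ∀ i ≤ L, ∀ b, ∀ x ∈ A, f i b x ∈ A) (hS : ∀ i ≤ L, ∀ x, ∃ b, f i b x ∈ A)
    (hV : ∀ i ≤ L, ∀ b, (V i b).card ≤ s)
    (hL : (L + 1) * s * (Fintype.card β - 1) ^ L < Fintype.card β ^ L) :
    ∃ W : ℕ → β, ∀ j ≤ L, ∀ v ∈ V j (W j), path (L + 1) f W (j + 1) L v ∈ A := by
  classical
  set q := Fintype.card β with hq
  have hq1 : 1 ≤ q := Fintype.card_pos
  have hlt : ∀ n : ℕ, n % (L + 1) < L + 1 := fun n => Nat.mod_lt _ (Nat.succ_pos L)
  have hle : ∀ n : ℕ, n % (L + 1) ≤ L := fun n => Nat.lt_succ_iff.1 (hlt n)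
  let e : (Fin (L + 1) → β) → ℕ → β := fun W n => W ⟨n % (L + 1), hlt n⟩
  let hm : ℕ → ℕ → β → X → X := fun j t b y => f ((j + 1 + t) % (L + 1)) b y
  have hmA : ∀ j i b, ∀ y ∈ A, hm j i b y ∈ A := fun j i b y hy => hA _ (hle _) b y hy
  have hmS : ∀ j i y, ∃ b, hm j i b y ∈ A := fun j i y => hS _ (hle _) y
  have hpath : ∀ (W : Fin (L + 1) → β) (j : ℕ) (v : X), path (L + 1) f (e W) (j + 1) L v =
      cwApp L (hm j) (fun t : Fin L => e W ((j + 1 + (t : ℕ)) % (L + 1))) v :=
    fun W j v => path_eq_cwApp (L + 1) f (e W) L (j + 1) v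
  let bad : ℕ → Finset (Fin (L + 1) → β) := fun j => Finset.univ.filter fun W =>
    ∃ v ∈ V j (e W j), path (L + 1) f (e W) (j + 1) L v ∉ A
  have hbad : ∀ j ≤ L, (bad j).card ≤ q * (s * (q - 1) ^ L) := by
    intro j hj
    let tgt : Finset (β × (Fin L → β)) := Finset.univ.biUnion fun b : β =>
      (V j b).biUnion fun v => (Finset.univ.filter fun w : Fin L → β =>
        cwApp L (hm j) w v ∉ A).image fun w => (b, w)
    have ht : tgt.card ≤ q * (s * (q - 1) ^ L) := by
      calc tgt.card ≤ ∑ b : β, _ := Finset.card_biUnion_le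
        _ ≤ ∑ _b : β, s * (q - 1) ^ L := by
            apply Finset.sum_le_sum
            intro b _
            calc _ ≤ ∑ v ∈ V j b, _ := Finset.card_biUnion_le
              _ ≤ ∑ _v ∈ V j b, (q - 1) ^ L := by
                  apply Finset.sum_le_sum
                  intro v _
                  exact Finset.card_image_le.trans (cw_count A L _ v (hmA j) (hmS j))
              _ = (V j b).card * (q - 1) ^ L := by rw [Finset.sum_const, smul_eq_mul]
              _ ≤ s * (q - 1) ^ L := Nat.mul_le_mul_right _ (hV j hj b)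
        _ = q * (s * (q - 1) ^ L) := by
            rw [Finset.sum_const, smul_eq_mul, Finset.card_univ]
    let Φ : (Fin (L + 1) → β) → β × (Fin L → β) := fun W =>
      (e W j, fun t : Fin L => e W ((j + 1 + (t : ℕ)) % (L + 1)))
    have hΦ : Function.Injective Φ := by
      intro W W' hWW
      have h1 : e W j = e W' j := congrArg Prod.fst hWW
      have h2 := congrArg Prod.snd hWW
      funext ⟨n, hn⟩
      have hen : ∀ U : Fin (L + 1) → β, U ⟨n, hn⟩ = e U n := by
        intro U
        show U ⟨n, hn⟩ = U ⟨n % (L + 1), hlt n⟩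
        congr 1
        exact Fin.ext (Nat.mod_eq_of_lt hn).symm
      have hem : ∀ (U : Fin (L + 1) → β) (i : ℕ), (j + 1 + i) % (L + 1) = n →
          e U ((j + 1 + i) % (L + 1)) = e U n := by
        intro U i hi
        rw [hi]
      rw [hen W, hen W']
      rcases lt_trichotomy n j with hnj | hnj | hnj
      · have hi : n + L - j < L := by omega
        have h3 := congrFun h2 ⟨n + L - j, hi⟩
        have h4 : (j + 1 + (n + L - j)) % (L + 1) = n := by
          have h5 : j + 1 + (n + L - j) = n + (L + 1) := by omega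
          rw [h5, Nat.add_mod_right, Nat.mod_eq_of_lt hn]
        rw [← hem W _ h4, ← hem W' _ h4]
        exact h3
      · rw [hnj]; exact h1
      · have hi : n - j - 1 < L := by omega
        have h3 := congrFun h2 ⟨n - j - 1, hi⟩
        have h4 : (j + 1 + (n - j - 1)) % (L + 1) = n := by
          have h5 : j + 1 + (n - j - 1) = n := by omega
          rw [h5, Nat.mod_eq_of_lt hn]
        rw [← hem W _ h4, ← hem W' _ h4]
        exact h3
    refine (Finset.card_le_card_of_injOn Φ ?_ hΦ.injOn).trans ht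
    intro W hW
    have hW' : W ∈ bad j := hW
    obtain ⟨v, hv, hv2⟩ := (Finset.mem_filter.1 hW').2
    rw [hpath] at hv2
    show Φ W ∈ tgt
    rw [Finset.mem_biUnion]
    refine ⟨e W j, Finset.mem_univ _, ?_⟩
    rw [Finset.mem_biUnion]
    refine ⟨v, hv, ?_⟩
    rw [Finset.mem_image]
    exact ⟨_, Finset.mem_filter.2 ⟨Finset.mem_univ _, hv2⟩, rfl⟩
  have htot : ((Finset.range (L + 1)).biUnion bad).card < Fintype.card (Fin (L + 1) → β) := by
    calc ((Finset.range (L + 1)).biUnion bad).card ≤ ∑ j ∈ Finset.range (L + 1), (bad j).card :=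
          Finset.card_biUnion_le
      _ ≤ ∑ _j ∈ Finset.range (L + 1), q * (s * (q - 1) ^ L) := by
          apply Finset.sum_le_sum
          intro j hj
          exact hbad j (Nat.lt_succ_iff.1 (Finset.mem_range.1 hj))
      _ = (L + 1) * (q * (s * (q - 1) ^ L)) := by
          rw [Finset.sum_const, smul_eq_mul, Finset.card_range]
      _ = q * ((L + 1) * s * (q - 1) ^ L) := by ring
      _ < q * q ^ L := Nat.mul_lt_mul_of_pos_left hL hq1
      _ = Fintype.card (Fin (L + 1) → β) := by
          rw [Fintype.card_fun, Fintype.card_fin, pow_succ, mul_comm]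
  obtain ⟨W, hW⟩ : ∃ W, W ∉ (Finset.range (L + 1)).biUnion bad := by
    by_contra hcon
    push Not at hcon
    have h1 : (Finset.range (L + 1)).biUnion bad = Finset.univ :=
      Finset.eq_univ_iff_forall.2 hcon
    rw [h1, Finset.card_univ] at htot
    exact lt_irrefl _ htot
  refine ⟨e W, fun j hj v hv => ?_⟩
  by_contra hcon
  apply hW
  rw [Finset.mem_biUnion]
  exact ⟨j, Finset.mem_range.2 (Nat.lt_succ_iff.2 hj),
    Finset.mem_filter.2 ⟨Finset.mem_univ _, v, hv, hcon⟩⟩

theorem exists_large (s q : ℕ) (hq : 1 ≤ q) :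
    ∃ L₀ : ℕ, ∀ L ≥ L₀, (L + 1) * s * (q - 1) ^ L < q ^ L := by
  have hq0 : (0 : ℝ) < q := by exact_mod_cast hq
  set r : ℝ := ((q - 1 : ℕ) : ℝ) / q with hr
  have hr0 : 0 ≤ r := by positivity
  have hr1 : r < 1 := by
    rw [hr, div_lt_one hq0]
    have : q - 1 < q := by omega
    exact_mod_cast this
  have h1 := (tendsto_self_mul_const_pow_of_lt_one hr0 hr1).const_mul (s : ℝ)
  have h2 := (tendsto_pow_atTop_nhds_zero_of_lt_one hr0 hr1).const_mul (s : ℝ)
  have h3 := h1.add h2
  rw [mul_zero, add_zero] at h3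
  obtain ⟨L₀, hL₀⟩ := Filter.eventually_atTop.1 (h3.eventually_lt_const (show (0 : ℝ) < 1 by norm_num))
  refine ⟨L₀, fun L hL => ?_⟩
  have h4 := hL₀ L hL
  have h5 : (0 : ℝ) < (q : ℝ) ^ L := by positivity
  have h6 : ((q - 1 : ℕ) : ℝ) ^ L = r ^ L * (q : ℝ) ^ L := by
    rw [hr, div_pow]
    field_simp
  have h7 : (((L + 1) * s * (q - 1) ^ L : ℕ) : ℝ) < ((q ^ L : ℕ) : ℝ) := by
    rw [Nat.cast_mul, Nat.cast_mul, Nat.cast_pow, Nat.cast_pow, h6, Nat.cast_add, Nat.cast_one]
    have h8 : ((L : ℝ) + 1) * s * (r ^ L * (q : ℝ) ^ L) =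
        (s * (L * r ^ L) + s * r ^ L) * (q : ℝ) ^ L := by ring
    rw [h8]
    calc (s * (L * r ^ L) + s * r ^ L) * (q : ℝ) ^ L < 1 * (q : ℝ) ^ L :=
          mul_lt_mul_of_pos_right h4 h5
      _ = (q : ℝ) ^ L := one_mul _
  exact_mod_cast h7

end Pool.Agent.H35.NA
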