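import Mathlib
import Pool.Agent.H35.NA.Rotations

/-!
# MODULE CV: critical points and critical values of compositions

PROOFS.
* `crit_comp`: if `h` is injective on a neighbourhood of `x` and `f` on a neighbourhood `V` of `h x`,
  then `f ∘ h` is injective on the intersection of the first with `h⁻¹ V`.
* `finCV_comp`: the critical values of `f ∘ h` lie in `f '' (h '' crit h) ∪ f '' crit f`.
* `crit_rot`: `rot r` is injective.
* `finCV_run`: induction on the word, `run g (r :: w) = run g w ∘ (rot r ∘ g)`.
* `run_continuous`, `run_surjective`: induction.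
-/

set_option autoImplicit false

open Filter Topology OnePoint
open Pool.Agent.H44.Fatou

namespace Pool.Agent.H35.NA

theorem crit_comp {f h : Sph → Sph} (hh : Continuous h) {x : Sph}
    (hx : x ∈ crit (fun x => f (h x))) : x ∈ crit h ∨ h x ∈ crit f := by
  by_contra hcon
  rw [not_or] at hcon
  obtain ⟨h1, h2⟩ := hcon
  replace h1 : ∃ U ∈ 𝓝 x, Set.InjOn h U := not_not.mp h1
  replace h2 : ∃ V ∈ 𝓝 (h x), Set.InjOn f V := not_not.mp h2
  obtain ⟨U, hU, hUi⟩ := h1
  obtain ⟨V, hV, hVi⟩ := h2
  apply hx
  refine ⟨U ∩ h ⁻¹' V, Filter.inter_mem hU (hh.continuousAt hV), ?_⟩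
  intro a ha b hb hab
  exact hUi ha.1 hb.1 (hVi ha.2 hb.2 hab)

theorem finCV_comp {f h : Sph → Sph} (hh : Continuous h) (h1 : FinCV f) (h2 : FinCV h) :
    FinCV (fun x => f (h x)) := by
  have hsub : (fun x => f (h x)) '' crit (fun x => f (h x)) ⊆
      f '' (h '' crit h) ∪ f '' crit f := by
    rintro _ ⟨x, hx, rfl⟩
    rcases crit_comp hh hx with h3 | h3
    · exact Or.inl ⟨h x, ⟨x, h3, rfl⟩, rfl⟩
    · exact Or.inr ⟨h x, h3, rfl⟩
  exact Set.Finite.subset ((h2.image f).union h1) hsub

theorem crit_rot (r : Rot) : crit (rot r) = ∅ := by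
  rw [Set.eq_empty_iff_forall_notMem]
  intro x hx
  exact hx ⟨Set.univ, Filter.univ_mem, (rot_injective r).injOn⟩

theorem run_continuous {g : Sph → Sph} (hg : Continuous g) (w : List Rot) :
    Continuous (run g w) := by
  induction w with
  | nil => exact continuous_id
  | cons r w ih =>
    have h1 : Continuous (fun x => rot r (g x)) :=
      rot_continuous.comp (Continuous.prodMk continuous_const hg)
    exact ih.comp h1

theorem run_surjective {g : Sph → Sph} (hg : Function.Surjective g) (w : List Rot) :
    Function.Surjective (run g w) := by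
  induction w with
  | nil => exact Function.surjective_id
  | cons r w ih => exact ih.comp ((rot_surjective r).comp hg)

theorem finCV_run {g : Sph → Sph} (hg : Continuous g) (hv : FinCV g) (w : List Rot) :
    FinCV (run g w) := by
  induction w with
  | nil =>
    have h0 : crit (run g []) = ∅ := by
      rw [Set.eq_empty_iff_forall_notMem]
      intro x hx
      exact hx ⟨Set.univ, Filter.univ_mem, fun a _ b _ hab => hab⟩
    unfold FinCV
    rw [h0, Set.image_empty]
    exact Set.finite_empty
  | cons r w ih =>
    have h0 : FinCV (rot r) := by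
      unfold FinCV
      rw [crit_rot, Set.image_empty]
      exact Set.finite_empty
    have h1 : FinCV (fun x => rot r (g x)) := finCV_comp hg h0 hv
    have hc : Continuous (fun x => rot r (g x)) :=
      rot_continuous.comp (Continuous.prodMk continuous_const hg)
    exact finCV_comp (f := run g w) (h := fun x => rot r (g x)) hc ih h1

end Pool.Agent.H35.NA
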