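import Mathlib
import Pool.Agent.H35.NA.Cv
import Pool.Agent.H35.NA.Rotations

/-!
# MODULE FAM: families of words of rotations (control lemmas)

`LL ε M` is the set of words `w ++ [r]` with all letters `ε`-close to the identity and
`M * (kicks w + 1) ≤ |w| + 1`, so that even if all of the last letter is used for steering at most the
fraction `1/M` of the letters differs from the identity.

PROOFS.
* `LL_append`: `(w ++ [r]) ++ (w' ++ [r']) = (w ++ [r] ++ w') ++ [r']` and
  `kicks (w ++ [r] ++ w') ≤ kicks w + 1 + kicks w'`.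
* `LL_insert`: the same with `replicate j oneR` in between (`kicks` of it is `0`).
* `LL_replicate`: `replicate n oneR = replicate (n-1) oneR ++ [oneR]`, `kicks = 0`.
* `LL_open`: the condition on the last letter is open.
* `LL_kicks`: `kicks (w ++ [r]) ≤ kicks w + 1`.
* `reach_open` (CP1): `u = w ++ [r]`, `run g u x = rot r (g (run g w x))`; `rot_open` with
  `N = {s | w ++ [s] ∈ L}`.
* `reach_adjust` (CP2): the same with `rot_adjust` and continuity of `x' ↦ g (run g w x')`.
* `reachable_isOpen`: from `reach_open`.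
* `reachable_maps`: `y ∈ closure (Reach g L x)`, `u ∈ L`: by CP2 every `y'` near `y` has `u' ∈ L` with
  `run g u' y' = run g u y`; choose `y' ∈ Reach g L x`, `y' = run g v x`; then
  `run g u y = run g (v ++ u') x`.
-/

set_option autoImplicit false

open Filter Topology OnePoint
open Pool.Agent.H44.Fatou

namespace Pool.Agent.H35.NA

/-- letters `ε`-close to the identity -/
def Small (ε : ℝ) (r : Rot) : Prop := ‖r.1.1 - 1‖ < ε ∧ ‖r.1.2‖ < ε

open Classical in
/-- number of letters different from the identity -/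
noncomputable def kicks (w : List Rot) : ℕ := w.countP (fun r => decide (r ≠ oneR))

/-- words of small rotations with few letters different from the identity -/
def LL (ε : ℝ) (M : ℕ) : Set (List Rot) :=
  {u | ∃ w r, u = w ++ [r] ∧ (∀ s ∈ u, Small ε s) ∧ M * (kicks w + 1) ≤ w.length + 1}

/-- the last letter of the words of `L` is free -/
def LastOpen (L : Set (List Rot)) : Prop :=
  (∀ u ∈ L, u ≠ []) ∧ ∀ w r, w ++ [r] ∈ L → ∀ᶠ s in 𝓝 r, w ++ [s] ∈ L

/-- the set of points reachable from `x` -/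
def Reach (g : Sph → Sph) (L : Set (List Rot)) (x : Sph) : Set Sph :=
  {y | ∃ u ∈ L, run g u x = y}

theorem kicks_append (u v : List Rot) : kicks (u ++ v) = kicks u + kicks v := by
  unfold kicks
  rw [List.countP_append]

theorem kicks_singleton_le (r : Rot) : kicks [r] ≤ 1 := by
  unfold kicks
  exact List.countP_le_length.trans (by simp)

theorem kicks_replicate (j : ℕ) : kicks (List.replicate j oneR) = 0 := by
  unfold kicks
  rw [List.countP_eq_zero]
  intro a ha
  have := List.eq_of_mem_replicate ha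
  simp [this]

theorem small_oneR {ε : ℝ} (hε : 0 < ε) : Small ε oneR := by
  unfold Small oneR
  simpa using hε

theorem LL_append {ε : ℝ} {M : ℕ} {u v : List Rot} (hu : u ∈ LL ε M) (hv : v ∈ LL ε M) :
    u ++ v ∈ LL ε M := by
  obtain ⟨w, r, rfl, hs, hk⟩ := hu
  obtain ⟨w', r', rfl, hs', hk'⟩ := hv
  refine ⟨w ++ [r] ++ w', r', by simp, ?_, ?_⟩
  · intro s hs1
    rcases List.mem_append.1 hs1 with h | h
    · exact hs s h
    · exact hs' s h
  · have h1 : kicks (w ++ [r] ++ w') ≤ kicks w + 1 + kicks w' := by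
      rw [kicks_append, kicks_append]
      have := kicks_singleton_le r
      omega
    have h2 : (w ++ [r] ++ w').length + 1 = (w.length + 1) + (w'.length + 1) := by
      simp
      ring
    rw [h2]
    calc M * (kicks (w ++ [r] ++ w') + 1) ≤ M * ((kicks w + 1) + (kicks w' + 1)) :=
          Nat.mul_le_mul_left M (by omega)
      _ = M * (kicks w + 1) + M * (kicks w' + 1) := by ring
      _ ≤ (w.length + 1) + (w'.length + 1) := Nat.add_le_add hk hk'

theorem LL_insert {ε : ℝ} (hε : 0 < ε) {M : ℕ} {u v : List Rot} (hu : u ∈ LL ε M)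
    (hv : v ∈ LL ε M) (j : ℕ) : u ++ List.replicate j oneR ++ v ∈ LL ε M := by
  obtain ⟨w, r, rfl, hs, hk⟩ := hu
  obtain ⟨w', r', rfl, hs', hk'⟩ := hv
  refine ⟨w ++ [r] ++ List.replicate j oneR ++ w', r', by simp, ?_, ?_⟩
  · intro s hs1
    rcases List.mem_append.1 hs1 with h | h
    · rcases List.mem_append.1 h with h | h
      · exact hs s h
      · rw [List.eq_of_mem_replicate h]
        exact small_oneR hε
    · exact hs' s h
  · have h1 : kicks (w ++ [r] ++ List.replicate j oneR ++ w') ≤ kicks w + 1 + kicks w' := by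
      rw [kicks_append, kicks_append, kicks_append, kicks_replicate]
      have := kicks_singleton_le r
      omega
    have h2 : (w.length + 1) + (w'.length + 1)
        ≤ (w ++ [r] ++ List.replicate j oneR ++ w').length + 1 := by
      simp
      omega
    calc M * (kicks (w ++ [r] ++ List.replicate j oneR ++ w') + 1)
        ≤ M * ((kicks w + 1) + (kicks w' + 1)) :=
          Nat.mul_le_mul_left M (by omega)
      _ = M * (kicks w + 1) + M * (kicks w' + 1) := by ring
      _ ≤ (w.length + 1) + (w'.length + 1) := Nat.add_le_add hk hk'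
      _ ≤ _ := h2

theorem LL_replicate {ε : ℝ} (hε : 0 < ε) {M n : ℕ} (hM : 1 ≤ M) (hn : M ≤ n) :
    List.replicate n oneR ∈ LL ε M := by
  obtain ⟨k, rfl⟩ : ∃ k, n = k + 1 := ⟨n - 1, by omega⟩
  refine ⟨List.replicate k oneR, oneR, List.replicate_succ', ?_, ?_⟩
  · intro s hs
    rw [List.eq_of_mem_replicate hs]
    exact small_oneR hε
  · rw [kicks_replicate]
    simpa using hn

theorem LL_open (ε : ℝ) (M : ℕ) : LastOpen (LL ε M) := by
  refine ⟨?_, ?_⟩
  · rintro u ⟨w, r, rfl, -, -⟩
    simp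
  · rintro w r ⟨w', r', hw, hs, hk⟩
    obtain ⟨rfl, hr⟩ := List.append_inj' hw rfl
    have hr' : r = r' := by simpa using hr
    subst hr'
    have hsm : Small ε r := hs r (by simp)
    have hc1 : Continuous (fun s : Rot => ‖s.1.1 - 1‖) := by fun_prop
    have hc2 : Continuous (fun s : Rot => ‖s.1.2‖) := by fun_prop
    have h1 : ∀ᶠ s : Rot in 𝓝 r, ‖s.1.1 - 1‖ < ε :=
      hc1.continuousAt.eventually (eventually_lt_nhds hsm.1)
    have h2 : ∀ᶠ s : Rot in 𝓝 r, ‖s.1.2‖ < ε :=
      hc2.continuousAt.eventually (eventually_lt_nhds hsm.2)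
    filter_upwards [h1, h2] with s hs1 hs2
    refine ⟨w, s, rfl, ?_, hk⟩
    intro t ht
    rcases List.mem_append.1 ht with h | h
    · exact hs t (List.mem_append_left _ h)
    · have : t = s := by simpa using h
      subst this
      exact ⟨hs1, hs2⟩

theorem LL_small {ε : ℝ} {M : ℕ} {u : List Rot} (hu : u ∈ LL ε M) : ∀ s ∈ u, Small ε s := by
  obtain ⟨w, r, rfl, hs, hk⟩ := hu
  exact hs

theorem LL_kicks {ε : ℝ} {M : ℕ} {u : List Rot} (hu : u ∈ LL ε M) : M * kicks u ≤ u.length := by
  obtain ⟨w, r, rfl, hs, hk⟩ := hu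
  have h1 : kicks (w ++ [r]) ≤ kicks w + 1 := by
    rw [kicks_append]
    have := kicks_singleton_le r
    omega
  calc M * kicks (w ++ [r]) ≤ M * (kicks w + 1) := Nat.mul_le_mul_left M h1
    _ ≤ w.length + 1 := hk
    _ = (w ++ [r]).length := by simp

theorem run_concat (g : Sph → Sph) (w : List Rot) (r : Rot) (x : Sph) :
    run g (w ++ [r]) x = rot r (g (run g w x)) := by
  rw [run_append]
  rfl

theorem LastOpen.exists_concat {L : Set (List Rot)} (hL : LastOpen L) {u : List Rot}
    (hu : u ∈ L) : ∃ w r, u = w ++ [r] := by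
  rcases List.eq_nil_or_concat u with h | ⟨w, r, h⟩
  · exact absurd h (hL.1 u hu)
  · exact ⟨w, r, by simpa using h⟩

theorem reach_open {g : Sph → Sph} {L : Set (List Rot)} (hL : LastOpen L) {u : List Rot}
    (hu : u ∈ L) (x : Sph) :
    {y : Sph | ∃ u' ∈ L, u'.length = u.length ∧ run g u' x = y} ∈ 𝓝 (run g u x) := by
  obtain ⟨w, r, rfl⟩ := hL.exists_concat hu
  have hN := hL.2 w r hu
  have h1 := rot_open r (g (run g w x)) hN
  rw [run_concat]
  refine Filter.mem_of_superset h1 ?_
  rintro z ⟨s, hs, hz⟩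
  refine ⟨w ++ [s], hs, by simp, ?_⟩
  rw [run_concat, hz]

theorem reach_adjust {g : Sph → Sph} (hg : Continuous g) {L : Set (List Rot)} (hL : LastOpen L)
    {u : List Rot} (hu : u ∈ L) (x : Sph) :
    ∀ᶠ x' in 𝓝 x, ∃ u' ∈ L, u'.length = u.length ∧ run g u' x' = run g u x := by
  obtain ⟨w, r, rfl⟩ := hL.exists_concat hu
  have hN := hL.2 w r hu
  have h1 := rot_adjust r (g (run g w x)) hN
  have hc : Continuous (fun x' => g (run g w x')) := hg.comp (run_continuous hg w)
  have h2 := hc.continuousAt.eventually h1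
  filter_upwards [h2] with x' hx'
  obtain ⟨s, hs, hz⟩ := hx'
  refine ⟨w ++ [s], hs, by simp, ?_⟩
  rw [run_concat, run_concat, hz]

theorem reach_isOpen {g : Sph → Sph} {L : Set (List Rot)} (hL : LastOpen L) (x : Sph) :
    IsOpen (Reach g L x) := by
  rw [isOpen_iff_mem_nhds]
  rintro y ⟨u, hu, rfl⟩
  refine Filter.mem_of_superset (reach_open hL hu x) ?_
  rintro z ⟨u', hu', -, hz⟩
  exact ⟨u', hu', hz⟩

theorem reach_maps {g : Sph → Sph} (hg : Continuous g) {L : Set (List Rot)} (hL : LastOpen L)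
    (happ : ∀ u ∈ L, ∀ v ∈ L, u ++ v ∈ L) {x y : Sph} (hy : y ∈ closure (Reach g L x))
    {u : List Rot} (hu : u ∈ L) : run g u y ∈ Reach g L x := by
  have h1 := reach_adjust hg hL hu y
  obtain ⟨y', ⟨u', hu', -, hz⟩, v, hv, hvy⟩ := (mem_closure_iff_nhds.1 hy) _ h1
  refine ⟨v ++ u', happ v hv u' hu', ?_⟩
  rw [run_append, hvy, hz]

end Pool.Agent.H35.NA
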