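import Mathlib
import Pool.Agent.H35.NA.Fam
import Pool.Agent.H35.NA.Lift
import Pool.Agent.H35.NA.Alg

/-!
# MODULE STAGE1: a proper disc (or domain) which a rich family of words maps strictly into itself

`rat P Q` is continuous (H44/Fatou/Basic or Const: `rat_continuous`-like lemma).  Write `g = rat P Q`,
`L₁ = LL ε M`, `V x = Reach g L₁ x`.

PROOF of `stage1`.
Case A: `closure (V x) ≠ univ` for some `x`.  Take `D = V x`, `L = L₁` (`reach_isOpen`, `reach_maps`,
`LL_append`, `LL_open`; nonempty and `two` by `LL_replicate` with `n = M, M + 1`).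
Case B: `closure (V x) = univ` for all `x`.  Then `V x = univ` for all `x`: for a point `y` write
`y = run g u z`, `u = replicate M oneR` (`run_surjective`, `rat_surjective`), `z ∈ closure (V x)`, and
use `reach_maps`.  Let `c : ℂ` be a root of `Wr P Q` (`wr_root`) and `p` a fixed point of `g`
(`rat_fixed`).  There are `u_a, u_b ∈ L₁` with `run g u_a c = p`, `run g u_b p = c`.  For `j = 0, 1` put
`U_j = u_a ++ replicate j oneR ++ u_b ∈ L₁` (`LL_insert`); `run g (replicate j oneR) p = p` (`rot_one`),
so `run g U_j c = c`.  `U_j = r :: w` is not empty and `run g U_j = h_j ∘ g` with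
`h_j x = run g w (rot r x)`, `SphHol h_j` (`SphHol.comp`, `sphHol_run`, `sphHol_rot`, `sphHol_rat`).
By `super_disc` there is a common `r > 0` such that both `run g U_j` map `closedBall c r` into
`ball c r`.  Let `D = (↑) '' ball c r`, open (`OnePoint.isOpenEmbedding_coe`), `closure D ⊆ (↑) ''
closedBall c r` (compact, hence closed), which does not contain `∞`; and
`L = {u ∈ L₁ | ∀ x ∈ closure D, run g u x ∈ D}`.  `app`: `run_append`, `D ⊆ closure D`.  Last letter
free: `(s, x) ↦ rot s (g (run g w x))` is continuous (`rot_continuous`), `closure D` is compact and `D` is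
open: tube lemma (`IsCompact.eventually_forall_of_forall_eventually` or `generalized_tube_lemma`).
-/

set_option autoImplicit false

open Filter Topology OnePoint
open Pool.Agent.H44.Fatou

namespace Pool.Agent.H35.NA

/-- a family `L` of words that maps the closure of the proper open set `D` into `D` -/
structure Fam (g : Sph → Sph) (ε : ℝ) (M : ℕ) (D : Set Sph) (L : Set (List Rot)) : Prop where
  open_D : IsOpen D
  ne_D : D.Nonempty
  cl_D : closure D ≠ Set.univ
  sub : L ⊆ LL ε M
  app : ∀ u ∈ L, ∀ v ∈ L, u ++ v ∈ L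
  lo : LastOpen L
  maps : ∀ u ∈ L, ∀ x ∈ closure D, run g u x ∈ D
  two : ∃ u ∈ L, ∃ v ∈ L, v.length = u.length + 1

private theorem run_fix {g : Sph → Sph} {p : Sph} (hp : g p = p) (j : ℕ) :
    run g (List.replicate j oneR) p = p := by
  induction j with
  | zero => rfl
  | succ j ih =>
    rw [List.replicate_succ, run_cons, rot_one, id, hp, ih]

theorem stage1 {P Q : Polynomial ℂ} (hcop : IsCoprime P Q) (hd : 2 ≤ dg P Q) {ε : ℝ} (hε : 0 < ε)
    {M : ℕ} (hM : 1 ≤ M) : ∃ (D : Set Sph) (L : Set (List Rot)), Fam (rat P Q) ε M D L := by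
  have hg : Continuous (rat P Q) := rat_continuous hcop
  have hd1 : 1 ≤ dg P Q := le_trans (by norm_num) hd
  have happ : ∀ u ∈ LL ε M, ∀ v ∈ LL ε M, u ++ v ∈ LL ε M := fun u hu v hv => LL_append hu hv
  by_cases hA : ∃ x, closure (Reach (rat P Q) (LL ε M) x) ≠ Set.univ
  · obtain ⟨x, hx⟩ := hA
    exact ⟨Reach (rat P Q) (LL ε M) x, LL ε M, {
      open_D := reach_isOpen (LL_open ε M) x
      ne_D := ⟨run (rat P Q) (List.replicate M oneR) x, List.replicate M oneR,
        LL_replicate hε hM le_rfl, rfl⟩
      cl_D := hx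
      sub := subset_rfl
      app := happ
      lo := LL_open ε M
      maps := fun u hu y hy => reach_maps hg (LL_open ε M) happ hy hu
      two := ⟨List.replicate M oneR, LL_replicate hε hM le_rfl, List.replicate (M + 1) oneR,
        LL_replicate hε hM (Nat.le_succ M), by simp⟩ }⟩
  · push Not at hA
    have hV : ∀ x y : Sph, y ∈ Reach (rat P Q) (LL ε M) x := by
      intro x y
      obtain ⟨z, hz⟩ := run_surjective (rat_surjective hcop hd1) (List.replicate M oneR) y
      rw [← hz]
      exact reach_maps hg (LL_open ε M) happ (by rw [hA x]; trivial) (LL_replicate hε hM le_rfl)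
    obtain ⟨c, hc⟩ := wr_root hcop hd
    obtain ⟨p, hp⟩ := rat_fixed hcop hd1
    obtain ⟨ua, hua, hrua⟩ := hV (c : Sph) p
    obtain ⟨ub, hub, hrub⟩ := hV p (c : Sph)
    have hU : ∀ j : ℕ, ua ++ List.replicate j oneR ++ ub ∈ LL ε M := fun j =>
      LL_insert hε hua hub j
    have hUc : ∀ j : ℕ, run (rat P Q) (ua ++ List.replicate j oneR ++ ub) (c : Sph) = (c : Sph) := by
      intro j
      rw [run_append, run_append, hrua, run_fix hp, hrub]
    have hdisc : ∀ j : ℕ, ∃ r₀ : ℝ, 0 < r₀ ∧ ∀ r : ℝ, 0 < r → r ≤ r₀ →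
        ∀ z ∈ Metric.closedBall c r, ∃ z' ∈ Metric.ball c r,
          run (rat P Q) (ua ++ List.replicate j oneR ++ ub) (z : Sph) = (z' : Sph) := by
      intro j
      have hne := (LL_open ε M).1 _ (hU j)
      have hfix := hUc j
      generalize ua ++ List.replicate j oneR ++ ub = U at hne hfix
      cases U with
      | nil => exact absurd rfl hne
      | cons s w =>
        have hh : SphHol (fun x => run (rat P Q) w (rot s x)) :=
          SphHol.comp (sphHol_run (sphHol_rat hcop) w) (sphHol_rot s)
        exact super_disc hcop hc hh hfix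
    obtain ⟨r0, hr0, h0⟩ := hdisc 0
    obtain ⟨r1, hr1, h1⟩ := hdisc 1
    obtain ⟨r, hr, hrr0, hrr1⟩ : ∃ r : ℝ, 0 < r ∧ r ≤ r0 ∧ r ≤ r1 :=
      ⟨min r0 r1, lt_min hr0 hr1, min_le_left _ _, min_le_right _ _⟩
    have hclD : closure ((fun z : ℂ => (z : Sph)) '' Metric.ball c r) ⊆
        (fun z : ℂ => (z : Sph)) '' Metric.closedBall c r := by
      apply closure_minimal (Set.image_mono Metric.ball_subset_closedBall)
      exact ((isCompact_closedBall c r).image continuous_coe).isClosed
    have hmap : ∀ j : ℕ, (∃ r₀ : ℝ, r ≤ r₀ ∧ ∀ r : ℝ, 0 < r → r ≤ r₀ →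
        ∀ z ∈ Metric.closedBall c r, ∃ z' ∈ Metric.ball c r,
          run (rat P Q) (ua ++ List.replicate j oneR ++ ub) (z : Sph) = (z' : Sph)) →
        ua ++ List.replicate j oneR ++ ub ∈ {u | u ∈ LL ε M ∧
          ∀ x ∈ closure ((fun z : ℂ => (z : Sph)) '' Metric.ball c r),
            run (rat P Q) u x ∈ (fun z : ℂ => (z : Sph)) '' Metric.ball c r} := by
      rintro j ⟨r₀, hrr, hj⟩
      refine ⟨hU j, fun x hx => ?_⟩
      obtain ⟨z, hz, rfl⟩ := hclD hx
      obtain ⟨z', hz', he⟩ := hj r hr hrr z hz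
      exact ⟨z', hz', he.symm⟩
    refine ⟨(fun z : ℂ => (z : Sph)) '' Metric.ball c r, {u | u ∈ LL ε M ∧
          ∀ x ∈ closure ((fun z : ℂ => (z : Sph)) '' Metric.ball c r),
            run (rat P Q) u x ∈ (fun z : ℂ => (z : Sph)) '' Metric.ball c r}, ?_⟩
    have hDo : IsOpen ((fun z : ℂ => (z : Sph)) '' Metric.ball c r) :=
      isOpenEmbedding_coe.isOpenMap _ Metric.isOpen_ball
    exact {
      open_D := hDo
      ne_D := ⟨(c : Sph), c, Metric.mem_ball_self hr, rfl⟩
      cl_D := by
        intro h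
        have hinf : (∞ : Sph) ∈ closure ((fun z : ℂ => (z : Sph)) '' Metric.ball c r) := by
          rw [h]; trivial
        obtain ⟨z, -, hz⟩ := hclD hinf
        exact coe_ne_infty z hz
      sub := fun u hu => hu.1
      app := by
        rintro u ⟨hu1, hu2⟩ v ⟨hv1, hv2⟩
        refine ⟨LL_append hu1 hv1, fun x hx => ?_⟩
        rw [run_append]
        exact hv2 _ (subset_closure (hu2 x hx))
      lo := by
        refine ⟨fun u hu => (LL_open ε M).1 u hu.1, ?_⟩
        rintro w s ⟨hw1, hw2⟩
        have e1 := (LL_open ε M).2 w s hw1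
        have hF : Continuous (fun q : Rot × Sph => rot q.1 (rat P Q (run (rat P Q) w q.2))) :=
          rot_continuous.comp (continuous_fst.prodMk
            (hg.comp ((run_continuous hg w).comp continuous_snd)))
        have hrun : ∀ (s : Rot) (x : Sph), run (rat P Q) (w ++ [s]) x =
            rot s (rat P Q (run (rat P Q) w x)) := by
          intro s x
          rw [run_append]
          rfl
        have e2 : ∀ᶠ s' in 𝓝 s, ∀ x ∈ closure ((fun z : ℂ => (z : Sph)) '' Metric.ball c r),
            rot s' (rat P Q (run (rat P Q) w x)) ∈ (fun z : ℂ => (z : Sph)) '' Metric.ball c r := by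
          apply IsCompact.eventually_forall_of_forall_eventually isClosed_closure.isCompact
          intro x hx
          have h2 := hw2 x hx
          rw [hrun] at h2
          exact (hF.continuousAt (x := (s, x))).preimage_mem_nhds (hDo.mem_nhds h2)
        filter_upwards [e1, e2] with s' h1' h2'
        refine ⟨h1', fun x hx => ?_⟩
        rw [hrun]
        exact h2' x hx
      maps := fun u hu => hu.2
      two := ⟨_, hmap 0 ⟨r0, hrr0, h0⟩, _, hmap 1 ⟨r1, hrr1, h1⟩, by simp; omega⟩ }

end Pool.Agent.H35.NA
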