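import Mathlib
import Pool.Agent.H35.NA.Stage1

/-!
# MODULE COVER: the second trap and a finite alphabet of words of equal length

PROOFS.
* `exists_T`: `T` is the union of all open sets `U` with `Disjoint U D` and `run g u x ∈ U` for
  `u ∈ L`, `x ∈ U`.  It is open, disjoint from `D`, and `run g u` maps `T` into `T`.  `closure T ≠ univ`
  as `D` is open, nonempty and disjoint from `T`.  For `x ∈ closure T`, `u ∈ L`: by `reach_adjust` all
  `x'` near `x` have `u' ∈ L` with `run g u' x' = run g u x`; take `x' ∈ T`.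
  Last clause: `Reach g L x` is open (`reach_isOpen`), mapped into itself by the words of `L` (`app`),
  nonempty; if it is disjoint from `D` it is one of the sets `U`, so contained in `T`.
* `exists_len`: the lengths of the words of `L` contain `l, l+1` (`two`), `l ≥ 1`, and are closed under
  addition, so contain all `n ≥ l * l`.
* `exists_alphabet`: for each `x` choose `u ∈ L` with `run g u x ∈ D ∪ T`; this persists near `x`
  (`run_continuous`), so by compactness finitely many words `u` suffice.  Let `n₁` be from `exists_len`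
  and `N` at least `n₁ + |u|` for all of them; append a word of `L` of length `N - |u|`; the words of `L`
  map `D ∪ T` into itself.
-/

set_option autoImplicit false

open Filter Topology OnePoint
open Pool.Agent.H44.Fatou

namespace Pool.Agent.H35.NA

theorem exists_T {g : Sph → Sph} (hg : Continuous g) {ε : ℝ} {M : ℕ} {D : Set Sph}
    {L : Set (List Rot)} (F : Fam g ε M D L) :
    ∃ T : Set Sph, IsOpen T ∧ closure T ≠ Set.univ ∧ (∀ u ∈ L, ∀ x ∈ closure T, run g u x ∈ T) ∧
      ∀ x : Sph, ∃ u ∈ L, run g u x ∈ D ∪ T := by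
  set T : Set Sph := ⋃₀ {U | IsOpen U ∧ Disjoint U D ∧ ∀ u ∈ L, ∀ x ∈ U, run g u x ∈ U} with hTdef
  have hTo : IsOpen T := isOpen_sUnion (fun U hU => hU.1)
  have hTm : ∀ u ∈ L, ∀ x ∈ T, run g u x ∈ T := by
    rintro u hu x ⟨U, hU, hxU⟩
    exact ⟨U, hU, hU.2.2 u hu x hxU⟩
  have hTD : Disjoint T D := by
    rw [Set.disjoint_left]
    rintro x ⟨U, hU, hxU⟩ hxD
    exact (Set.disjoint_left.1 hU.2.1) hxU hxD
  refine ⟨T, hTo, ?_, ?_, ?_⟩
  · intro h
    obtain ⟨d, hd⟩ := F.ne_D
    have h1 : d ∈ closure T := by rw [h]; trivial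
    obtain ⟨y, hyD, hyT⟩ := mem_closure_iff.1 h1 D F.open_D hd
    exact (Set.disjoint_left.1 hTD) hyT hyD
  · intro u hu x hx
    have h1 := reach_adjust hg F.lo hu x
    obtain ⟨x', ⟨u', hu', -, hz⟩, hx'⟩ := (mem_closure_iff_nhds.1 hx) _ h1
    rw [← hz]
    exact hTm u' hu' x' hx'
  · intro x
    by_cases h : Disjoint (Reach g L x) D
    · obtain ⟨u, hu, -⟩ := F.two
      refine ⟨u, hu, Or.inr ⟨Reach g L x, ⟨reach_isOpen F.lo x, h, ?_⟩, ⟨u, hu, rfl⟩⟩⟩
      rintro v hv y ⟨w, hw, rfl⟩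
      exact ⟨w ++ v, F.app w hw v hv, run_append g w v x⟩
    · rw [Set.not_disjoint_iff] at h
      obtain ⟨y, ⟨u, hu, rfl⟩, hyD⟩ := h
      exact ⟨u, hu, Or.inl hyD⟩

theorem exists_len {g : Sph → Sph} {ε : ℝ} {M : ℕ} {D : Set Sph} {L : Set (List Rot)}
    (F : Fam g ε M D L) : ∃ n₁ : ℕ, ∀ n ≥ n₁, ∃ u ∈ L, u.length = n := by
  obtain ⟨u, hu, v, hv, hlen⟩ := F.two
  set l := u.length with hl
  have hl1 : 1 ≤ l := by
    have : u ≠ [] := F.lo.1 u hu
    exact List.length_pos_iff.2 this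
  have key : ∀ k : ℕ, ∀ b : ℕ, b ≤ k + 1 → ∃ w ∈ L, w.length = (k + 1) * l + b := by
    intro k
    induction k with
    | zero =>
      intro b hb
      rcases Nat.lt_or_ge b 1 with h | h
      · refine ⟨u, hu, ?_⟩
        have : b = 0 := by omega
        subst this
        simp [hl]
      · have : b = 1 := by omega
        subst this
        exact ⟨v, hv, by rw [hlen]; ring⟩
    | succ k ih =>
      intro b hb
      rcases Nat.lt_or_ge b (k + 1 + 1) with h | h
      · obtain ⟨w, hw, hwl⟩ := ih b (by omega)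
        refine ⟨w ++ u, F.app w hw u hu, ?_⟩
        rw [List.length_append, hwl, ← hl]
        ring
      · obtain ⟨w, hw, hwl⟩ := ih (b - 1) (by omega)
        refine ⟨w ++ v, F.app w hw v hv, ?_⟩
        rw [List.length_append, hwl, hlen]
        have : b = (b - 1) + 1 := by omega
        conv_rhs => rw [this]
        ring
  refine ⟨l * l, fun n hn => ?_⟩
  have h1 : l ≤ n / l := (Nat.le_div_iff_mul_le (by omega)).2 hn
  have h2 : n % l < l := Nat.mod_lt _ (by omega)
  obtain ⟨w, hw, hwl⟩ := key (n / l - 1) (n % l) (by omega)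
  refine ⟨w, hw, ?_⟩
  rw [hwl]
  have h3 : n / l - 1 + 1 = n / l := by omega
  rw [h3]
  exact Nat.div_add_mod' n l

theorem exists_alphabet {g : Sph → Sph} (hg : Continuous g) {ε : ℝ} {M : ℕ} {D : Set Sph}
    {L : Set (List Rot)} (F : Fam g ε M D L) {T : Set Sph} (hT : IsOpen T)
    (hmap : ∀ u ∈ L, ∀ x ∈ closure T, run g u x ∈ T)
    (hall : ∀ x : Sph, ∃ u ∈ L, run g u x ∈ D ∪ T) :
    ∃ (N : ℕ) (B : Finset (List Rot)), 1 ≤ N ∧ B.Nonempty ∧ (∀ b ∈ B, b ∈ L ∧ b.length = N) ∧
      ∀ x : Sph, ∃ b ∈ B, run g b x ∈ D ∪ T := by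
  classical
  choose U hUL hU using hall
  have hopen : IsOpen (D ∪ T) := F.open_D.union hT
  have hnh : ∀ x : Sph, {y | run g (U x) y ∈ D ∪ T} ∈ 𝓝 x := by
    intro x
    exact (hopen.preimage (run_continuous hg (U x))).mem_nhds (hU x)
  obtain ⟨t, ht⟩ := CompactSpace.elim_nhds_subcover (fun x => {y | run g (U x) y ∈ D ∪ T}) hnh
  obtain ⟨n₁, hn₁⟩ := exists_len F
  set N : ℕ := n₁ + 1 + ∑ x ∈ t, (U x).length with hN
  have hlen : ∀ x ∈ t, n₁ ≤ N - (U x).length ∧ (U x).length ≤ N := by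
    intro x hx
    have h1 : (U x).length ≤ ∑ x ∈ t, (U x).length :=
      Finset.single_le_sum (f := fun x => (U x).length) (fun _ _ => Nat.zero_le _) hx
    omega
  have hW : ∀ x : Sph, ∃ w : List Rot, x ∈ t → (w ∈ L ∧ (U x).length + w.length = N) := by
    intro x
    by_cases hx : x ∈ t
    · obtain ⟨w, hw, hwl⟩ := hn₁ _ (hlen x hx).1
      exact ⟨w, fun _ => ⟨hw, by have := (hlen x hx).2; omega⟩⟩
    · exact ⟨[], fun h => absurd h hx⟩
  choose W hW using hW
  refine ⟨N, t.image (fun x => U x ++ W x), by omega, ?_, ?_, ?_⟩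
  · rw [Finset.image_nonempty]
    by_contra h
    rw [Finset.not_nonempty_iff_eq_empty] at h
    rw [h] at ht
    have h1 : (∞ : Sph) ∈ (⊤ : Set Sph) := trivial
    rw [← ht] at h1
    simp at h1
  · intro b hb
    obtain ⟨x, hx, rfl⟩ := Finset.mem_image.1 hb
    refine ⟨F.app _ (hUL x) _ (hW x hx).1, ?_⟩
    rw [List.length_append, (hW x hx).2]
  · intro y
    have h1 : y ∈ (⊤ : Set Sph) := trivial
    rw [← ht] at h1
    obtain ⟨x, hx, hy⟩ := Set.mem_iUnion₂.1 h1
    refine ⟨U x ++ W x, Finset.mem_image.2 ⟨x, hx, rfl⟩, ?_⟩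
    rw [run_append]
    rcases hy with h | h
    · exact Or.inl (F.maps _ (hW x hx).1 _ (subset_closure h))
    · exact Or.inr (hmap _ (hW x hx).1 _ (subset_closure h))

end Pool.Agent.H35.NA
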