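import Mathlib
import Pool.Agent.H35.NA.Cover
import Pool.Agent.H35.NA.Count
import Pool.Agent.H35.NA.TrapS

/-!
# From the family to long words with hyperbolic composition
-/

set_option autoImplicit false

open Filter Topology OnePoint
open Pool.Agent.H44.Fatou

namespace Pool.Agent.H35.NA

theorem path_add {X β : Type*} (N : ℕ) (f : ℕ → β → X → X) (W : ℕ → β) (i m k : ℕ) (x : X) :
    path N f W i (m + k) x = path N f W (i + m) k (path N f W i m x) := by
  induction m generalizing i x with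
  | zero => simp [path]
  | succ m ih =>
      have h : m + 1 + k = (m + k) + 1 := by ring
      rw [h, path, ih, path]
      congr 1
      ring

theorem path_shift {X β : Type*} (N : ℕ) (f : ℕ → β → X → X) (W : ℕ → β) (i m : ℕ) (x : X) :
    path N f W (N + i) m x = path N f W i m x := by
  induction m generalizing i x with
  | zero => simp [path]
  | succ m ih =>
      rw [path, path, Nat.add_assoc, ih, Nat.add_mod_left]


theorem crit_id : crit (fun x : Sph => x) = ∅ := by
  ext c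
  simp only [crit, Set.mem_ofPred_eq, Set.mem_empty_iff_false, iff_false, not_not]
  exact ⟨Set.univ, Filter.univ_mem, fun x _ y _ h => h⟩

theorem path_continuous {β : Type*} (N : ℕ) (f : ℕ → β → Sph → Sph)
    (hf : ∀ i b, Continuous (f i b)) (W : ℕ → β) (m i : ℕ) :
    Continuous (fun x => path N f W i m x) := by
  induction m generalizing i with
  | zero => exact continuous_id
  | succ m ih => exact (ih (i + 1)).comp (hf _ _)

theorem crit_path {β : Type*} (N : ℕ) (f : ℕ → β → Sph → Sph)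
    (hf : ∀ i b, Continuous (f i b)) (W : ℕ → β) (m : ℕ) :
    ∀ (i : ℕ) (c : Sph), c ∈ crit (fun x => path N f W i m x) →
      ∃ j < m, path N f W i j c ∈ crit (f ((i + j) % N) (W ((i + j) % N))) := by
  induction m with
  | zero =>
    intro i c hc
    have : c ∈ crit (fun x : Sph => x) := hc
    rw [crit_id] at this
    exact absurd this (Set.notMem_empty c)
  | succ m ih =>
    intro i c hc
    have h1 : c ∈ crit (fun x => (fun y => path N f W (i + 1) m y) (f (i % N) (W (i % N)) x)) := hc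
    rcases crit_comp (hf _ _) h1 with h2 | h2
    · exact ⟨0, Nat.succ_pos m, h2⟩
    · obtain ⟨j, hj, h3⟩ := ih (i + 1) _ h2
      refine ⟨j + 1, by omega, ?_⟩
      have h4 : i + (j + 1) = i + 1 + j := by ring
      rw [h4]
      exact h3

theorem path_mem {X β : Type*} {N : ℕ} (hN : 0 < N) {f : ℕ → β → X → X} {W : ℕ → β} {A : Set X}
    (hA : ∀ i < N, ∀ b, ∀ x ∈ A, f i b x ∈ A) (m : ℕ) :
    ∀ (i : ℕ) (x : X), x ∈ A → path N f W i m x ∈ A := by
  induction m with
  | zero => intro i x hx; exact hx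
  | succ m ih =>
    intro i x hx
    exact ih _ _ (hA _ (Nat.mod_lt _ hN) _ _ hx)

theorem stage2 {g : Sph → Sph} (hg : Continuous g) (hol : SphHol g) (hv : FinCV g) {ε : ℝ} {M : ℕ}
    {D : Set Sph} {L : Set (List Rot)} (F : Fam g ε M D L) :
    ∃ n₀ : ℕ, ∀ n ≥ n₀, ∃ w ∈ L, w.length = n ∧ ∀ c ∈ crit (run g w), Attr (run g w) c := by
  obtain ⟨T, hTo, hTne, hTm, hall⟩ := exists_T hg F
  obtain ⟨N, B, hN, hBne, hB, hBx⟩ := exists_alphabet hg F hTo hTm hall
  obtain ⟨n₁, hn₁⟩ := exists_len F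
  choose! φ hφ using hn₁
  have hAL : ∀ u ∈ L, ∀ x ∈ D ∪ T, run g u x ∈ D ∪ T := by
    intro u hu x hx
    rcases hx with hx | hx
    · exact Or.inl (F.maps u hu x (subset_closure hx))
    · exact Or.inr (hTm u hu x (subset_closure hx))
  set cv : List Rot → Finset Sph := fun w => (finCV_run hg hv w).toFinset with hcv
  set s : ℕ := ∑ b ∈ B, ((cv b).card + ∑ ρ ∈ Finset.range (n₁ + N), (cv (b ++ φ ρ)).card) with hs
  have hs1 : ∀ b ∈ B, (cv b).card ≤ s := by
    intro b hb
    refine le_trans ?_ (Finset.single_le_sum (f := fun b => (cv b).card +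
      ∑ ρ ∈ Finset.range (n₁ + N), (cv (b ++ φ ρ)).card) (fun _ _ => Nat.zero_le _) hb)
    exact Nat.le_add_right _ _
  have hs2 : ∀ b ∈ B, ∀ ρ < n₁ + N, (cv (b ++ φ ρ)).card ≤ s := by
    intro b hb ρ hρ
    refine le_trans ?_ (Finset.single_le_sum (f := fun b => (cv b).card +
      ∑ ρ ∈ Finset.range (n₁ + N), (cv (b ++ φ ρ)).card) (fun _ _ => Nat.zero_le _) hb)
    refine le_trans ?_ (Nat.le_add_left _ _)
    exact Finset.single_le_sum (f := fun ρ => (cv (b ++ φ ρ)).card) (fun _ _ => Nat.zero_le _)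
      (Finset.mem_range.2 hρ)
  have hne : Nonempty B := by
    obtain ⟨b, hb⟩ := hBne
    exact ⟨⟨b, hb⟩⟩
  obtain ⟨L₀, hL₀⟩ := exists_large s (Fintype.card B) (Fintype.card_pos)
  refine ⟨n₁ + N + (L₀ + 1) * N, fun n hn => ?_⟩
  obtain ⟨L', ρ, hL', hρ1, hρ2, hneq⟩ : ∃ L' ρ : ℕ, L₀ ≤ L' ∧ n₁ ≤ ρ ∧ ρ < n₁ + N ∧
      n = (L' + 1) * N + ρ := by
    refine ⟨(n - n₁) / N - 1, n₁ + (n - n₁) % N, ?_, Nat.le_add_right _ _,
      Nat.add_lt_add_left (Nat.mod_lt _ hN) _, ?_⟩
    · have h1 : L₀ + 2 ≤ (n - n₁) / N := by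
        rw [Nat.le_div_iff_mul_le hN]
        have : (L₀ + 2) * N = N + (L₀ + 1) * N := by ring
        omega
      omega
    · have h1 : L₀ + 2 ≤ (n - n₁) / N := by
        rw [Nat.le_div_iff_mul_le hN]
        have : (L₀ + 2) * N = N + (L₀ + 1) * N := by ring
        omega
      have h2 : (n - n₁) / N - 1 + 1 = (n - n₁) / N := by omega
      rw [h2]
      have h3 := Nat.div_add_mod' (n - n₁) N
      have h4 : n₁ ≤ n := by
        have := Nat.zero_le ((L₀ + 1) * N)
        omega
      omega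
  have hφρ := hφ ρ hρ1
  set f : ℕ → B → Sph → Sph := fun i b => if i = 0 then run g (b.1 ++ φ ρ) else run g b.1 with hf
  set V : ℕ → B → Finset Sph := fun i b => if i = 0 then cv (b.1 ++ φ ρ) else cv b.1 with hV
  have hfL : ∀ (i : ℕ) (b : B), ∃ u ∈ L, (∀ x, f i b x = run g u x) ∧ f i b = run g u ∧
      V i b = cv u := by
    intro i b
    by_cases hi : i = 0
    · refine ⟨b.1 ++ φ ρ, F.app _ (hB b.1 b.2).1 _ hφρ.1, ?_, ?_, ?_⟩
      · intro x; simp [hf, hi]
      · simp [hf, hi]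
      · simp [hV, hi]
    · refine ⟨b.1, (hB b.1 b.2).1, ?_, ?_, ?_⟩
      · intro x; simp [hf, hi]
      · simp [hf, hi]
      · simp [hV, hi]
  have hfc : ∀ i b, Continuous (f i b) := by
    intro i b
    obtain ⟨u, hu, h1, h2, -⟩ := hfL i b
    rw [h2]
    exact run_continuous hg u
  have hfA : ∀ i b, ∀ x ∈ D ∪ T, f i b x ∈ D ∪ T := by
    intro i b x hx
    obtain ⟨u, hu, h1, -⟩ := hfL i b
    rw [h1]
    exact hAL u hu x hx
  obtain ⟨W, hW⟩ := exists_cyclic_word (D ∪ T) s L' f V (fun i _ b x hx => hfA i b x hx)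
    (fun i _ x => by
      obtain ⟨b, hb, hbx⟩ := hBx x
      by_cases hi : i = 0
      · refine ⟨⟨b, hb⟩, ?_⟩
        simp only [hf, hi, if_true]
        rw [run_append]
        exact hAL _ hφρ.1 _ hbx
      · refine ⟨⟨b, hb⟩, ?_⟩
        simp only [hf, hi, if_false]
        exact hbx)
    (fun i _ b => by
      by_cases hi : i = 0
      · simp only [hV, hi, if_true]
        exact hs2 b.1 b.2 ρ hρ2
      · simp only [hV, hi, if_false]
        exact hs1 b.1 b.2)
    (hL₀ L' hL')
  -- the word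
  have hword : ∀ m ≤ L', ∃ w ∈ L, w.length = (m + 1) * N + ρ ∧
      ∀ x, run g w x = path (L' + 1) f W 0 (m + 1) x := by
    intro m
    induction m with
    | zero =>
      intro _
      refine ⟨(W 0).1 ++ φ ρ, F.app _ (hB _ (W 0).2).1 _ hφρ.1, ?_, ?_⟩
      · rw [List.length_append, (hB _ (W 0).2).2, hφρ.2]
        ring
      · intro x
        simp [path, hf]
    | succ m ih =>
      intro hm
      obtain ⟨w, hw, hwl, hwx⟩ := ih (by omega)
      refine ⟨w ++ (W (m + 1)).1, F.app _ hw _ (hB _ (W (m + 1)).2).1, ?_, ?_⟩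
      · rw [List.length_append, (hB _ (W (m + 1)).2).2, hwl]
        ring
      · intro x
        have h1 : (0 + (m + 1)) % (L' + 1) = m + 1 := by
          rw [Nat.zero_add]; exact Nat.mod_eq_of_lt (by omega)
        have h2 : ∀ (i : ℕ) (y : Sph), path (L' + 1) f W i 1 y
            = f (i % (L' + 1)) (W (i % (L' + 1))) y := fun _ _ => rfl
        rw [run_append, hwx, path_add (L' + 1) f W 0 (m + 1) 1 x, h2, h1]
        simp [hf]
  obtain ⟨w, hwL, hwl, hwx⟩ := hword L' le_rfl
  refine ⟨w, hwL, by rw [hwl, hneq], ?_⟩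
  intro c hc
  have hrun : run g w = fun x => path (L' + 1) f W 0 (L' + 1) x := funext hwx
  have hc' : c ∈ crit (fun x => path (L' + 1) f W 0 (L' + 1) x) := by rw [← hrun]; exact hc
  obtain ⟨j, hj, hcj⟩ := crit_path (L' + 1) f hfc W (L' + 1) 0 c hc'
  have hjm : (0 + j) % (L' + 1) = j := by rw [Nat.zero_add]; exact Nat.mod_eq_of_lt hj
  rw [hjm] at hcj
  obtain ⟨u, hu, hfu, hfu', hVu⟩ := hfL j (W j)
  have hv1 : f j (W j) (path (L' + 1) f W 0 j c) ∈ V j (W j) := by
    rw [hVu, hfu, hcv]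
    simp only [Set.Finite.mem_toFinset]
    rw [hfu'] at hcj
    exact ⟨_, hcj, rfl⟩
  have hv2 := hW j (by omega) _ hv1
  have hA2 : path (L' + 1) f W 0 (2 * (L' + 1)) c ∈ D ∪ T := by
    have h1 : 2 * (L' + 1) = j + (1 + (L' + (L' + 1 - j))) := by omega
    rw [h1, path_add, path_add, path_add]
    apply path_mem (Nat.succ_pos L') (fun i _ b x hx => hfA i b x hx)
    have h2 : path (L' + 1) f W (0 + j) 1 (path (L' + 1) f W 0 j c)
        = f j (W j) (path (L' + 1) f W 0 j c) := by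
      simp only [path]
      rw [hjm]
    rw [h2]
    have h3 : 0 + j + 1 = j + 1 := by ring
    rw [h3]
    exact hv2
  have hHH : (run g w)^[2] c ∈ D ∪ T := by
    have h1 : (run g w)^[2] c = run g w (run g w c) := rfl
    rw [h1, hwx c, hwx]
    have h2 := path_shift (L' + 1) f W 0 (L' + 1) (path (L' + 1) f W 0 (L' + 1) c)
    rw [← h2, Nat.add_zero]
    have h3 := path_add (L' + 1) f W 0 (L' + 1) (L' + 1) c
    rw [Nat.zero_add] at h3
    rw [← h3]
    have h4 : L' + 1 + (L' + 1) = 2 * (L' + 1) := by ring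
    rw [h4]
    exact hA2
  have hHc : Continuous (run g w) := run_continuous hg w
  have hHol : SphHol (run g w) := sphHol_run hol w
  apply attr_of_iterate hHc 2
  rcases hHH with h | h
  · exact attr_of_trap hHc hHol F.open_D F.cl_D (F.maps w hwL) h
  · exact attr_of_trap hHc hHol hTo hTne (hTm w hwL) h

end Pool.Agent.H35.NA
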