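import Mathlib
import Pool.Agent.H35.NA.Stage1
import Pool.Agent.H35.NA.Stage2

/-!
# Assembly: compositions of a rational map with small rare rotations
-/

set_option autoImplicit false

open Filter Topology OnePoint
open scoped ComplexConjugate
open Pool.Agent.H44.Fatou

namespace Pool.Agent.H35.NA

/-- the numerator of `rot r ∘ (P/Q)` -/
noncomputable def numR (r : Rot) (P Q : Polynomial ℂ) : Polynomial ℂ :=
  Polynomial.C r.1.1 * P - Polynomial.C (conj r.1.2) * Q

/-- the denominator of `rot r ∘ (P/Q)` -/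
noncomputable def denR (r : Rot) (P Q : Polynomial ℂ) : Polynomial ℂ :=
  Polynomial.C r.1.2 * P + Polynomial.C (conj r.1.1) * Q

theorem coprime_rot (r : Rot) {P Q : Polynomial ℂ} (h : IsCoprime P Q) :
    IsCoprime (numR r P Q) (denR r P Q) := by
  obtain ⟨u, v, huv⟩ := h
  have h1 := unit_mul_conj r
  have hC : Polynomial.C r.1.1 * Polynomial.C (conj r.1.1)
      + Polynomial.C r.1.2 * Polynomial.C (conj r.1.2) = 1 := by
    rw [← Polynomial.C_mul, ← Polynomial.C_mul, ← Polynomial.C_add, h1, Polynomial.C_1]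
  refine ⟨u * Polynomial.C (conj r.1.1) - v * Polynomial.C r.1.2,
    u * Polynomial.C (conj r.1.2) + v * Polynomial.C r.1.1, ?_⟩
  unfold numR denR
  linear_combination huv + (u * P + v * Q) * hC

theorem dg_rot (r : Rot) {P Q : Polynomial ℂ} (h : IsCoprime P Q) :
    dg (numR r P Q) (denR r P Q) = dg P Q := by
  have h1 := unit_mul_conj r
  apply le_antisymm
  · have hP : P.natDegree ≤ dg P Q := le_max_left _ _
    have hQ : Q.natDegree ≤ dg P Q := le_max_right _ _
    apply max_le
    · refine (Polynomial.natDegree_sub_le _ _).trans (max_le ?_ ?_)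
      · exact (Polynomial.natDegree_C_mul_le _ _).trans hP
      · exact (Polynomial.natDegree_C_mul_le _ _).trans hQ
    · refine (Polynomial.natDegree_add_le _ _).trans (max_le ?_ ?_)
      · exact (Polynomial.natDegree_C_mul_le _ _).trans hP
      · exact (Polynomial.natDegree_C_mul_le _ _).trans hQ
  · by_contra hlt
    push Not at hlt
    have e1 : (numR r P Q).coeff (dg P Q) = 0 :=
      Polynomial.coeff_eq_zero_of_natDegree_lt ((le_max_left _ _).trans_lt hlt)
    have e2 : (denR r P Q).coeff (dg P Q) = 0 :=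
      Polynomial.coeff_eq_zero_of_natDegree_lt ((le_max_right _ _).trans_lt hlt)
    unfold numR at e1
    unfold denR at e2
    rw [Polynomial.coeff_sub, Polynomial.coeff_C_mul, Polynomial.coeff_C_mul] at e1
    rw [Polynomial.coeff_add, Polynomial.coeff_C_mul, Polynomial.coeff_C_mul] at e2
    rcases coeff_dg h with h0 | h0
    · apply h0
      linear_combination (conj r.1.1) * e1 + (conj r.1.2) * e2 - P.coeff (dg P Q) * h1
    · apply h0
      linear_combination (-r.1.2) * e1 + r.1.1 * e2 - Q.coeff (dg P Q) * h1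

theorem rot_rat (r : Rot) {P Q : Polynomial ℂ} (h : IsCoprime P Q) (x : Sph) :
    rot r (rat P Q x) = rat (numR r P Q) (denR r P Q) x := by
  induction x using OnePoint.rec with
  | infty =>
    rw [rat_infty, rot_pt r (coeff_dg h), rat_infty, dg_rot r h]
    unfold numR denR
    rw [Polynomial.coeff_sub, Polynomial.coeff_C_mul, Polynomial.coeff_C_mul,
      Polynomial.coeff_add, Polynomial.coeff_C_mul, Polynomial.coeff_C_mul]
  | coe z =>
    rw [rat_coe, rot_pt r (coprime_eval h z), rat_coe]
    unfold numR denR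
    simp only [Polynomial.eval_sub, Polynomial.eval_mul, Polynomial.eval_C, Polynomial.eval_add]

/-- coefficients of the rotated pair are close -/
theorem coeff_close (P Q : Polynomial ℂ) {η : ℝ} (hη : 0 < η) :
    ∃ δ : ℝ, 0 < δ ∧ ∀ r : Rot, Small δ r → ∀ i : ℕ,
      ‖(numR r P Q).coeff i - P.coeff i‖ < η ∧ ‖(denR r P Q).coeff i - Q.coeff i‖ < η := by
  obtain ⟨B, hB0, hB⟩ : ∃ B : ℝ, 0 ≤ B ∧ ∀ i, ‖P.coeff i‖ ≤ B ∧ ‖Q.coeff i‖ ≤ B := by
    refine ⟨∑ i ∈ Finset.range (dg P Q + 1), (‖P.coeff i‖ + ‖Q.coeff i‖),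
      Finset.sum_nonneg (fun i _ => by positivity), fun i => ?_⟩
    by_cases hi : i < dg P Q + 1
    · have h1 := Finset.single_le_sum (f := fun i => ‖P.coeff i‖ + ‖Q.coeff i‖)
        (fun i _ => by positivity) (Finset.mem_range.2 hi)
      have h2 := norm_nonneg (P.coeff i)
      have h3 := norm_nonneg (Q.coeff i)
      constructor <;> linarith
    · have hP : P.coeff i = 0 := Polynomial.coeff_eq_zero_of_natDegree_lt (by
        have : P.natDegree ≤ dg P Q := le_max_left _ _
        omega)
      have hQ : Q.coeff i = 0 := Polynomial.coeff_eq_zero_of_natDegree_lt (by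
        have : Q.natDegree ≤ dg P Q := le_max_right _ _
        omega)
      rw [hP, hQ, norm_zero]
      exact ⟨Finset.sum_nonneg (fun i _ => by positivity),
        Finset.sum_nonneg (fun i _ => by positivity)⟩
  refine ⟨η / (2 * B + 1), by positivity, fun r hr i => ?_⟩
  obtain ⟨h1, h2⟩ := hr
  have hB1 : 0 < 2 * B + 1 := by linarith
  have hδ : 2 * (η / (2 * B + 1) * B) < η := by
    have h3 : 2 * (η / (2 * B + 1) * B) = η * (2 * B) / (2 * B + 1) := by ring
    rw [h3, div_lt_iff₀ hB1]
    nlinarith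
  have hc2 : ‖conj r.1.2‖ < η / (2 * B + 1) := by rwa [RCLike.norm_conj]
  have hc1 : ‖conj r.1.1 - 1‖ < η / (2 * B + 1) := by
    have : conj r.1.1 - 1 = conj (r.1.1 - 1) := by simp
    rw [this, RCLike.norm_conj]
    exact h1
  obtain ⟨hPi, hQi⟩ := hB i
  constructor
  · have e : (numR r P Q).coeff i - P.coeff i
        = (r.1.1 - 1) * P.coeff i - conj r.1.2 * Q.coeff i := by
      unfold numR
      rw [Polynomial.coeff_sub, Polynomial.coeff_C_mul, Polynomial.coeff_C_mul]
      ring
    rw [e]
    calc ‖(r.1.1 - 1) * P.coeff i - conj r.1.2 * Q.coeff i‖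
        ≤ ‖(r.1.1 - 1) * P.coeff i‖ + ‖conj r.1.2 * Q.coeff i‖ := norm_sub_le _ _
      _ ≤ η / (2 * B + 1) * B + η / (2 * B + 1) * B := by
          rw [norm_mul, norm_mul]; gcongr
      _ = 2 * (η / (2 * B + 1) * B) := by ring
      _ < η := hδ
  · have e : (denR r P Q).coeff i - Q.coeff i
        = r.1.2 * P.coeff i + (conj r.1.1 - 1) * Q.coeff i := by
      unfold denR
      rw [Polynomial.coeff_add, Polynomial.coeff_C_mul, Polynomial.coeff_C_mul]
      ring
    rw [e]
    calc ‖r.1.2 * P.coeff i + (conj r.1.1 - 1) * Q.coeff i‖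
        ≤ ‖r.1.2 * P.coeff i‖ + ‖(conj r.1.1 - 1) * Q.coeff i‖ := norm_add_le _ _
      _ ≤ η / (2 * B + 1) * B + η / (2 * B + 1) * B := by
          rw [norm_mul, norm_mul]; gcongr
      _ = 2 * (η / (2 * B + 1) * B) := by ring
      _ < η := hδ

/-- the letters of a word as a sequence -/
noncomputable def letter (w : List Rot) (j : ℕ) : Rot := w.getD j oneR

/-- `compN f n = f (n-1) ∘ ... ∘ f 0` -/
def compN (f : ℕ → Sph → Sph) : ℕ → Sph → Sph
  | 0 => id
  | n + 1 => f n ∘ compN f n

theorem compN_run (g : Sph → Sph) (w : List Rot) (x : Sph) :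
    ∀ n ≤ w.length, compN (fun j y => rot (letter w j) (g y)) n x = run g (w.take n) x := by
  intro n
  induction n with
  | zero => intro _; simp [compN]
  | succ n ih =>
    intro hn
    have h1 : n < w.length := by omega
    rw [List.take_succ_eq_append_getElem h1, run_append, ← ih (by omega)]
    have h2 : letter w n = w[n] := by
      unfold letter
      exact List.getD_eq_getElem _ _ h1
    simp only [compN, Function.comp_apply, run_cons, run_nil, h2]

theorem kicks_card (w : List Rot) (S : Finset ℕ)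
    (hS : ∀ j ∈ S, j < w.length ∧ letter w j ≠ oneR) : S.card ≤ kicks w := by
  induction w using List.reverseRecOn generalizing S with
  | nil =>
    have : S = ∅ := by
      ext j
      constructor
      · intro hj; exact absurd (hS j hj).1 (by simp)
      · intro hj; exact absurd hj (Finset.notMem_empty j)
    rw [this]; simp
  | append_singleton w r ih =>
    have hk : kicks (w ++ [r]) = kicks w + kicks [r] := by
      unfold kicks
      rw [List.countP_append]
    have h1 : (S.erase w.length).card ≤ kicks w := by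
      apply ih
      intro j hj
      rw [Finset.mem_erase] at hj
      obtain ⟨h2, h3⟩ := hS j hj.2
      rw [List.length_append, List.length_singleton] at h2
      have h4 : j < w.length := by omega
      refine ⟨h4, ?_⟩
      have h5 : letter (w ++ [r]) j = letter w j := by
        unfold letter
        exact List.getD_append _ _ _ _ h4
      rwa [h5] at h3
    by_cases hm : w.length ∈ S
    · have h2 := (hS _ hm).2
      have h3 : letter (w ++ [r]) w.length = r := by
        unfold letter
        simp [List.getD]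
      rw [h3] at h2
      have h4 : kicks [r] = 1 := by
        unfold kicks
        simp [h2]
      rw [Finset.card_erase_of_mem hm] at h1
      rw [hk, h4]
      omega
    · rw [Finset.erase_eq_of_notMem hm] at h1
      rw [hk]
      omega

/-- the main theorem in terms of words -/
theorem main_words {P Q : Polynomial ℂ} (hcop : IsCoprime P Q) (hd : 2 ≤ dg P Q) {ε : ℝ}
    (hε : 0 < ε) {M : ℕ} (hM : 1 ≤ M) :
    ∃ n₀ : ℕ, ∀ n ≥ n₀, ∃ w : List Rot, w.length = n ∧ (∀ s ∈ w, Small ε s) ∧
      M * kicks w ≤ n ∧ ∀ c ∈ crit (run (rat P Q) w), Attr (run (rat P Q) w) c := by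
  obtain ⟨D, L, F⟩ := stage1 hcop hd hε hM
  obtain ⟨n₀, h⟩ := stage2 (rat_continuous hcop) (sphHol_rat hcop) (finCV_rat hcop (by omega)) F
  refine ⟨n₀, fun n hn => ?_⟩
  obtain ⟨w, hw, hl, hc⟩ := h n hn
  exact ⟨w, hl, LL_small (F.sub hw), hl ▸ LL_kicks (F.sub hw), hc⟩

theorem main {P Q : Polynomial ℂ} (hcop : IsCoprime P Q) {d : ℕ} (hd : 2 ≤ d)
    (hdeg : max P.natDegree Q.natDegree = d) {ε : ℝ} (hε : 0 < ε) {M : ℕ} (hM : 1 ≤ M) :
    ∃ n₀ : ℕ, ∀ n ≥ n₀, ∃ (a b : ℕ → ℂ) (f : ℕ → OnePoint ℂ → OnePoint ℂ),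
      (∀ j, ‖a j‖ ^ 2 + ‖b j‖ ^ 2 = 1 ∧ ‖a j - 1‖ < ε ∧ ‖b j‖ < ε) ∧
      (∀ S : Finset ℕ, (∀ j ∈ S, j < n ∧ ¬ (a j = 1 ∧ b j = 0)) → M * S.card ≤ n) ∧
      (∀ j, IsCoprime (Polynomial.C (a j) * P - Polynomial.C (conj (b j)) * Q)
          (Polynomial.C (b j) * P + Polynomial.C (conj (a j)) * Q) ∧
        max (Polynomial.C (a j) * P - Polynomial.C (conj (b j)) * Q).natDegree
          (Polynomial.C (b j) * P + Polynomial.C (conj (a j)) * Q).natDegree = d ∧
        (∀ i, ‖(Polynomial.C (a j) * P - Polynomial.C (conj (b j)) * Q).coeff i - P.coeff i‖ < ε ∧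
          ‖(Polynomial.C (b j) * P + Polynomial.C (conj (a j)) * Q).coeff i - Q.coeff i‖ < ε) ∧
        Continuous (f j) ∧
        ∀ z : ℂ, (Polynomial.C (b j) * P + Polynomial.C (conj (a j)) * Q).eval z ≠ 0 →
          f j (OnePoint.some z) = OnePoint.some
            ((Polynomial.C (a j) * P - Polynomial.C (conj (b j)) * Q).eval z /
              (Polynomial.C (b j) * P + Polynomial.C (conj (a j)) * Q).eval z)) ∧
      ∀ c ∈ crit (compN f n), Attr (compN f n) c := by
  have hdg : dg P Q = d := hdeg
  obtain ⟨δ, hδ, hclose⟩ := coeff_close P Q hε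
  obtain ⟨n₀, h⟩ := main_words hcop (by rw [hdg]; exact hd) (lt_min hε hδ) hM
  refine ⟨n₀, fun n hn => ?_⟩
  obtain ⟨w, hl, hs, hk, hc⟩ := h n hn
  have hsm : ∀ j, Small (min ε δ) (letter w j) := by
    intro j
    unfold letter
    by_cases hj : j < w.length
    · rw [List.getD_eq_getElem _ _ hj]
      exact hs _ (List.getElem_mem hj)
    · rw [List.getD_eq_default _ _ (by omega)]
      constructor
      · simpa [oneR] using lt_min hε hδ
      · simpa [oneR] using lt_min hε hδ
  refine ⟨fun j => (letter w j).1.1, fun j => (letter w j).1.2,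
    fun j y => rot (letter w j) (rat P Q y), ?_, ?_, ?_, ?_⟩
  · intro j
    exact ⟨(letter w j).2, lt_of_lt_of_le (hsm j).1 (min_le_left _ _),
      lt_of_lt_of_le (hsm j).2 (min_le_left _ _)⟩
  · intro S hS
    refine le_trans (Nat.mul_le_mul_left M ?_) hk
    apply kicks_card w S
    intro j hj
    obtain ⟨h1, h2⟩ := hS j hj
    refine ⟨by rw [hl]; exact h1, fun h3 => h2 ?_⟩
    simp only [h3, oneR, and_self]
  · intro j
    refine ⟨coprime_rot _ hcop, ?_, ?_, ?_, ?_⟩
    · exact (dg_rot (letter w j) hcop).trans hdg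
    · intro i
      apply hclose (letter w j)
      exact ⟨lt_of_lt_of_le (hsm j).1 (min_le_right _ _),
        lt_of_lt_of_le (hsm j).2 (min_le_right _ _)⟩
    · exact (rot_continuous.comp (Continuous.prodMk continuous_const continuous_id)).comp
        (rat_continuous hcop)
    · intro z hz
      change rot (letter w j) (rat P Q z) = _
      rw [rot_rat _ hcop]
      exact rat_coe_of_ne hz
  · have hrun : compN (fun j y => rot (letter w j) (rat P Q y)) n = run (rat P Q) w := by
      funext x
      rw [compN_run (rat P Q) w x n (by rw [hl]), List.take_of_length_le (by rw [hl])]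
    rw [hrun]
    exact hc

end Pool.Agent.H35.NA
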